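import Mathlib

/-!
# The Galois coniveau of the powers of a smooth projective variety: definitions

`V = H^*(X)` (coefficients extended to `ℚ̄_ℓ ≅ ℂ`), `X` a smooth projective variety over a finite field or a
number field (or a disjoint union of several varieties), or a part `V` of `H^*(X)` cut out by algebraic
correspondences. `V` has a basis of homogeneous elements, indexed by `I`, the basis element `x` has degree `wt x`.
An element of `V^(⊗ m)` is a function on the words `Fin m → I`. `Φ` is the set of the pairs `(q, F)`, `F` the Frobenius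
(one element for a finite field; for a number field all places of good reduction), `q` the number of elements of the
residue field.
-/

set_option autoImplicit false

namespace Pool.Agent.Helper75.BG

variable {I : Type} [Fintype I]

/-- The Frobenius on `V^(⊗ m)`. -/
noncomputable def tensorPower {m : ℕ} (F : Matrix I I ℂ) (u : (Fin m → I) → ℂ) :
    (Fin m → I) → ℂ := fun x => ∑ y, (∏ p, F (x p) (y p)) * u y

/-- `U ⊆ H^i(X^m)` is a subrepresentation such that `U(ν)` is effective of weight `i - 2ν`: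
`U` is stable under the Frobenii, and for every eigenvalue `β` of a Frobenius on `U` both
`β / q ^ ν` and `q ^ (i - ν) / β = q ^ (i - 2ν) / (β / q ^ ν)` are algebraic integers. -/
structure IsEffective (Φ : Set (ℕ × Matrix I I ℂ)) (wt : I → ℕ) (m i ν : ℕ)
    (U : Submodule ℂ ((Fin m → I) → ℂ)) : Prop where
  degree : ∀ u ∈ U, ∀ y, u y ≠ 0 → ∑ p, wt (y p) = i
  stable : ∀ z ∈ Φ, ∀ u ∈ U, tensorPower z.2 u ∈ U
  integral : ∀ z ∈ Φ, ∀ u ∈ U, u ≠ 0 → ∀ β : ℂ, tensorPower z.2 u = β • u →
    IsIntegral ℤ (β / (z.1 : ℂ) ^ ν) ∧ IsIntegral ℤ ((z.1 : ℂ) ^ (i - ν) / β)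

/-- The Galois coniveau `N_ℓ^ν H^i(X^m)`: the span of all subrepresentations `U` of `H^i(X^m)` such that
`U(ν)` is effective of weight `i - 2ν`. -/
noncomputable def galoisConiveau (Φ : Set (ℕ × Matrix I I ℂ)) (wt : I → ℕ) (m i ν : ℕ) :
    Submodule ℂ ((Fin m → I) → ℂ) := sSup {U | IsEffective Φ wt m i ν U}

/-- The Koszul sign: for a word `y` of classes on the factors of `X^n = X^m × X^m'`, numbered by the
bijection `e`, the sign of the permutation of the classes of odd degree given by `e`. -/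
noncomputable def koszul (wt : I → ℕ) {m m' n : ℕ} (e : Fin m ⊕ Fin m' ≃ Fin n)
    (y : Fin n → I) : ℂ :=
  ∏ s, ∏ t, if finSumFinEquiv s < finSumFinEquiv t ∧ e t < e s then
    (-1) ^ (wt (y (e s)) * wt (y (e t))) else 1

/-- The external product of `u` in `H^*(X^m)` and `v` in `H^*(X^m')`, the factors `X` of
`X^n = X^m × X^m'` numbered by the bijection `e`. -/
noncomputable def product (wt : I → ℕ) {m m' n : ℕ} (e : Fin m ⊕ Fin m' ≃ Fin n)
    (u : (Fin m → I) → ℂ) (v : (Fin m' → I) → ℂ) : (Fin n → I) → ℂ :=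
  fun x => koszul wt e x * (u (fun p => x (e (Sum.inl p))) * v (fun p => x (e (Sum.inr p))))

/-- The properties of the geometric coniveau `G m i ν = N^ν H^i(X^m)` which are used: it is contained
in the Galois coniveau, everything for `ν = 0`, and closed under external products. -/
structure IsGeometric (Φ : Set (ℕ × Matrix I I ℂ)) (wt : I → ℕ)
    (G : (m i ν : ℕ) → Submodule ℂ ((Fin m → I) → ℂ)) : Prop where
  le : ∀ m i ν, G m i ν ≤ galoisConiveau Φ wt m i ν
  zero : ∀ (m i : ℕ) (u : (Fin m → I) → ℂ), (∀ y, u y ≠ 0 → ∑ p, wt (y p) = i) → u ∈ G m i 0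
  mul : ∀ {m m' n i i' ν ν' : ℕ} (e : Fin m ⊕ Fin m' ≃ Fin n) (u : (Fin m → I) → ℂ)
    (v : (Fin m' → I) → ℂ), u ∈ G m i ν → v ∈ G m' i' ν' → product wt e u v ∈ G n (i + i') (ν + ν')

/-- Products of elements of the Galois coniveau of the powers `X^m`, `m ≤ B`, in `H^i(X^m)`, of total
coniveau `ν`. -/
inductive IsProduct (B : ℕ) (Φ : Set (ℕ × Matrix I I ℂ)) (wt : I → ℕ) :
    (m i ν : ℕ) → ((Fin m → I) → ℂ) → Prop
  | base {m i ν : ℕ} (hm : m ≤ B) (u : (Fin m → I) → ℂ) (hu : u ∈ galoisConiveau Φ wt m i ν) :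
      IsProduct B Φ wt m i ν u
  | mul {m m' n i i' ν ν' : ℕ} (e : Fin m ⊕ Fin m' ≃ Fin n) (u : (Fin m → I) → ℂ)
      (v : (Fin m' → I) → ℂ) (hu : IsProduct B Φ wt m i ν u) (hv : IsProduct B Φ wt m' i' ν' v) :
      IsProduct B Φ wt n (i + i') (ν + ν') (product wt e u v)

/-- The properties of the Frobenii on the cohomology of the powers of any smooth projective variety:
they respect the degree, and the eigenvalues on `H^i(X^m)` are algebraic integers of absolute value
`q^(i/2)` (Deligne). -/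
structure IsSystem (Φ : Set (ℕ × Matrix I I ℂ)) (wt : I → ℕ) : Prop where
  two_le : ∀ z ∈ Φ, 2 ≤ z.1
  graded : ∀ z ∈ Φ, ∀ x y, z.2 x y ≠ 0 → wt x = wt y
  pure : ∀ z ∈ Φ, ∀ (m i : ℕ) (u : (Fin m → I) → ℂ), u ≠ 0 →
    (∀ y, u y ≠ 0 → ∑ p, wt (y p) = i) → ∀ β : ℂ, tensorPower z.2 u = β • u →
    IsIntegral ℤ β ∧ ‖β‖ = Real.sqrt z.1 ^ i

/-- The properties of the Frobenii on the cohomology of a smooth projective variety of dimension at most `n`
(over a finite field, or of CM type over a number field), `d` a bound for the number of the systems of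
eigenvalues and `N` a common denominator of the slopes. `jordan`: the basis is homogeneous, all `F` are upper triangular,
and the basis elements connected by an `F` have the same eigenvalues, for all `F`; `weight`: the eigenvalues
on `H^j` have absolute value `q^(j/2)`; `integral`: they are algebraic integers, divisible by `q^(j - n)` if
`j > n` (hard Lefschetz); `slope`: at every prime ideal `P` of the ring of all algebraic integers which contains
`q` every eigenvalue `α` has a slope `c / N`, that is `α ^ N` is `q ^ c` times a unit at `P`. -/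
structure IsFrobenius [LinearOrder I] (d n N : ℕ) (Φ : Set (ℕ × Matrix I I ℂ)) (wt : I → ℕ) :
    Prop where
  nonempty : Φ.Nonempty
  two_le : ∀ z ∈ Φ, 2 ≤ z.1
  card_le : (Set.range fun (x : I) (z : Φ) => z.1.2 x x).ncard ≤ d
  jordan : ∀ z ∈ Φ, ∀ x y, z.2 x y ≠ 0 → x ≤ y ∧ wt x = wt y ∧ ∀ z' ∈ Φ, z'.2 x x = z'.2 y y
  weight : ∀ z ∈ Φ, ∀ x, ‖z.2 x x‖ = Real.sqrt z.1 ^ wt x
  integral : ∀ z ∈ Φ, ∀ x, IsIntegral ℤ (z.2 x x / (z.1 : ℂ) ^ (wt x - n))
  slope : ∀ z ∈ Φ, ∀ x, ∀ P : Ideal (integralClosure ℤ ℂ), P.IsPrime →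
    (z.1 : integralClosure ℤ ℂ) ∈ P → ∃ c : ℕ, ∃ u v : integralClosure ℤ ℂ,
    u ∉ P ∧ v ∉ P ∧ z.2 x x ^ N * u = (z.1 : ℂ) ^ c * v

end Pool.Agent.Helper75.BG
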