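import Pool.Agent.Helper75.BG.Main

/-!
# The Galois coniveau of all powers is generated by boundedly many powers
-/

set_option autoImplicit false

namespace Pool.Agent.Helper75.BG

variable {I : Type} [Fintype I]

section
variable [LinearOrder I]

omit [Fintype I] [LinearOrder I] in
theorem le_of_integral {q ν i : ℕ} (hq : 2 ≤ q) {β : ℂ} (h : IsIntegral ℤ (β / (q : ℂ) ^ ν))
    (hn : ‖β‖ = Real.sqrt q ^ i) : ν ≤ i := by
  obtain ⟨P, hP, hqP⟩ := exists_prime hq
  have hqC : (q : ℂ) ≠ 0 := by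
    have : q ≠ 0 := by omega
    exact_mod_cast this
  by_contra hlt
  push Not at hlt
  have h3 := conj_integral h
  have h4 := mul_conj_of_norm hn
  let a : integralClosure ℤ ℂ := ⟨_, h⟩
  let b : integralClosure ℤ ℂ := ⟨_, h3⟩
  have h5 : (a : ℂ) * (b : ℂ) * (q : ℂ) ^ (2 * ν - i) = 1 := by
    show (β / (q : ℂ) ^ ν) * (starRingEnd ℂ) (β / (q : ℂ) ^ ν) * _ = 1
    rw [map_div₀, map_pow, map_natCast]
    have h6 : (q : ℂ) ^ ν * (q : ℂ) ^ ν = (q : ℂ) ^ i * (q : ℂ) ^ (2 * ν - i) := by
      rw [← pow_add, ← pow_add]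
      congr 1
      omega
    rw [div_mul_div_comm, h4, div_mul_eq_mul_div, h6, div_self]
    exact mul_ne_zero (pow_ne_zero _ hqC) (pow_ne_zero _ hqC)
  have h6 : a * b * (q : integralClosure ℤ ℂ) ^ (2 * ν - i) = 1 := by
    apply Subtype.ext
    push_cast
    exact h5
  apply hP.ne_top
  rw [Ideal.eq_top_iff_one, ← h6]
  exact P.mul_mem_left _ (P.pow_mem_of_mem hqP _ (by omega))

omit [LinearOrder I] in
theorem good_two_mul_le {q ν m : ℕ} {wt : I → ℕ} {F : Matrix I I ℂ} (hq : 2 ≤ q)
    (h : ∀ x, IsIntegral ℤ (F x x) ∧ ‖F x x‖ = Real.sqrt q ^ wt x) {y : Fin m → I}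
    (hy : Good q wt F ν y) : ν ≤ ∑ p, wt (y p) :=
  le_of_integral hq hy.1 (eig_norm h y).2

omit [Fintype I] [LinearOrder I] in
theorem eig_split {m m' n : ℕ} (F : Matrix I I ℂ) (e : Fin m ⊕ Fin m' ≃ Fin n) (y : Fin n → I) :
    eig F y = eig F (fun p => y (e (Sum.inl p))) * eig F (fun p => y (e (Sum.inr p))) := by
  unfold eig
  rw [← e.prod_comp, Fintype.prod_sum_type]

omit [Fintype I] [LinearOrder I] in
theorem wt_split {m m' n : ℕ} (wt : I → ℕ) (e : Fin m ⊕ Fin m' ≃ Fin n) (y : Fin n → I) :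
    ∑ p, wt (y p) = ∑ p, wt (y (e (Sum.inl p))) + ∑ p, wt (y (e (Sum.inr p))) := by
  rw [← e.sum_comp, Fintype.sum_sum_type]

/-- the Galois coniveau is closed under products -/
theorem galois_mul {d n₀ N : ℕ} {wt : I → ℕ} {Φ : Set (ℕ × Matrix I I ℂ)}
    (hF : IsFrobenius d n₀ N Φ wt)
    {m m' n i i' ν ν' : ℕ} (e : Fin m ⊕ Fin m' ≃ Fin n) (u : (Fin m → I) → ℂ)
    (v : (Fin m' → I) → ℂ) (hu : u ∈ galoisConiveau Φ wt m i ν)
    (hv : v ∈ galoisConiveau Φ wt m' i' ν') :
    product wt e u v ∈ galoisConiveau Φ wt n (i + i') (ν + ν') := by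
  have hj : Jors wt Φ := hF.jordan
  rw [galois_eq hj] at hu hv ⊢
  intro y hy
  have h1 : u (fun p => y (e (Sum.inl p))) ≠ 0 := left_ne_zero_of_mul (right_ne_zero_of_mul hy)
  have h2 : v (fun p => y (e (Sum.inr p))) ≠ 0 := right_ne_zero_of_mul (right_ne_zero_of_mul hy)
  obtain ⟨hg, hi⟩ := hu _ h1
  obtain ⟨hg', hi'⟩ := hv _ h2
  refine ⟨fun z hz => ⟨?_, ?_⟩, ?_⟩
  · rw [eig_split z.2 e, pow_add, mul_div_mul_comm]
    exact (hg z hz).1.mul (hg' z hz).1
  · have hle := good_two_mul_le (hF.two_le z hz) (fun x => hF.weights hz x) (hg z hz)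
    have hle' := good_two_mul_le (hF.two_le z hz) (fun x => hF.weights hz x) (hg' z hz)
    rw [eig_split z.2 e, wt_split wt e]
    have h3 : ∑ p, wt (y (e (Sum.inl p))) + ∑ p, wt (y (e (Sum.inr p))) - (ν + ν') =
        (∑ p, wt (y (e (Sum.inl p))) - ν) + (∑ p, wt (y (e (Sum.inr p))) - ν') := by
      omega
    rw [h3, pow_add, mul_div_mul_comm]
    exact (hg z hz).2.mul (hg' z hz).2
  · rw [wt_split wt e, hi, hi']

end

omit [Fintype I] in
theorem product_add_left (wt : I → ℕ) {m m' n : ℕ} (e : Fin m ⊕ Fin m' ≃ Fin n) (u u' : (Fin m → I) → ℂ)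
    (v : (Fin m' → I) → ℂ) : product wt e (u + u') v = product wt e u v + product wt e u' v := by
  funext x
  simp only [product, Pi.add_apply]
  ring

omit [Fintype I] in
theorem product_add_right (wt : I → ℕ) {m m' n : ℕ} (e : Fin m ⊕ Fin m' ≃ Fin n) (u : (Fin m → I) → ℂ)
    (v v' : (Fin m' → I) → ℂ) : product wt e u (v + v') = product wt e u v + product wt e u v' := by
  funext x
  simp only [product, Pi.add_apply]
  ring

omit [Fintype I] in
theorem product_smul_left (wt : I → ℕ) {m m' n : ℕ} (e : Fin m ⊕ Fin m' ≃ Fin n) (c : ℂ) (u : (Fin m → I) → ℂ)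
    (v : (Fin m' → I) → ℂ) : product wt e (c • u) v = c • product wt e u v := by
  funext x
  simp only [product, Pi.smul_apply, smul_eq_mul]
  ring

omit [Fintype I] in
theorem product_smul_right (wt : I → ℕ) {m m' n : ℕ} (e : Fin m ⊕ Fin m' ≃ Fin n) (c : ℂ) (u : (Fin m → I) → ℂ)
    (v : (Fin m' → I) → ℂ) : product wt e u (c • v) = c • product wt e u v := by
  funext x
  simp only [product, Pi.smul_apply, smul_eq_mul]
  ring

omit [Fintype I] in
theorem product_zero_left (wt : I → ℕ) {m m' n : ℕ} (e : Fin m ⊕ Fin m' ≃ Fin n) (v : (Fin m' → I) → ℂ) :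
    product wt e (0 : (Fin m → I) → ℂ) v = 0 := by
  funext x
  simp only [product, Pi.zero_apply, zero_mul, mul_zero]

omit [Fintype I] in
theorem product_zero_right (wt : I → ℕ) {m m' n : ℕ} (e : Fin m ⊕ Fin m' ≃ Fin n) (u : (Fin m → I) → ℂ) :
    product wt e u (0 : (Fin m' → I) → ℂ) = 0 := by
  funext x
  simp only [product, Pi.zero_apply, mul_zero]

variable [LinearOrder I]

/-- **The Galois coniveau of all powers is generated by the powers `X^m`, `m ≤ B`.** -/
theorem generation (d n N : ℕ) (hn : 1 ≤ n) (hN : 1 ≤ N) (Φ : Set (ℕ × Matrix I I ℂ))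
    (wt : I → ℕ) (hF : IsFrobenius d n N Φ wt) (m i ν : ℕ) :
    galoisConiveau Φ wt m i ν = Submodule.span ℂ {u | IsProduct
      (d * d.factorial * N ^ d * n ^ (d - 1)) Φ wt m i ν u} := by
  classical
  set B := d * d.factorial * N ^ d * n ^ (d - 1) with hB
  have hj : Jors wt Φ := hF.jordan
  have hle : ∀ {m i ν : ℕ} {u : (Fin m → I) → ℂ}, IsProduct B Φ wt m i ν u →
      u ∈ galoisConiveau Φ wt m i ν := by
    intro m i ν u hu
    induction hu with
    | base hm u hu => exact hu
    | mul e u v _ _ ihu ihv => exact galois_mul hF e u v ihu ihv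
  symm
  refine bounded_generation d n N hn hN I Φ wt hF
    (fun m i ν => Submodule.span ℂ {u | IsProduct B Φ wt m i ν u}) ?_ ?_ i ν ?_ m i
    le_rfl ν le_rfl
  · intro m i ν
    refine Submodule.span_le.2 fun u hu => hle hu
  · intro m m' n i i' ν ν' e u v hu hv
    have h1 : ∀ u ∈ {u | IsProduct B Φ wt m i ν u}, ∀ v ∈ Submodule.span ℂ
        {u | IsProduct B Φ wt m' i' ν' u}, product wt e u v ∈ Submodule.span ℂ
        {u | IsProduct B Φ wt n (i + i') (ν + ν') u} := by
      intro u hu v hv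
      refine Submodule.span_induction ?_ ?_ ?_ ?_ hv
      · intro v hv
        exact Submodule.subset_span (IsProduct.mul e u v hu hv)
      · rw [product_zero_right]
        exact Submodule.zero_mem _
      · intro a b _ _ ha hb
        rw [product_add_right]
        exact Submodule.add_mem _ ha hb
      · intro c a _ ha
        rw [product_smul_right]
        exact Submodule.smul_mem _ _ ha
    refine Submodule.span_induction ?_ ?_ ?_ ?_ hu
    · intro u hu
      exact h1 u hu v hv
    · rw [product_zero_left]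
      exact Submodule.zero_mem _
    · intro a b _ _ ha hb
      rw [product_add_left]
      exact Submodule.add_mem _ ha hb
    · intro c a _ ha
      rw [product_smul_left]
      exact Submodule.smul_mem _ _ ha
  · intro m hm i _ ν _
    refine le_antisymm (Submodule.span_le.2 fun u hu => hle hu) ?_
    intro u hu
    exact Submodule.subset_span (IsProduct.base hm u hu)

end Pool.Agent.Helper75.BG
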