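import Pool.Agent.Helper75.BG.Ray

/-!
# Gordan's lemma with an explicit bound
-/

set_option autoImplicit false

namespace Pool.Agent.Helper75.BG

theorem gordan_step (d N M A : ℕ) (hA : 1 ≤ A) (hM : M ≤ A) (C : Finset (Fin d → ℕ))
    (hC : ∀ c ∈ C, ∀ j, c j ≤ M) (c0 : Fin d → ℕ) (hc0 : c0 ∈ C) (k : Fin d → ℕ)
    (hmin : ∀ c ∈ C, ∑ j, k j * c0 j ≤ ∑ j, k j * c j)
    (hk : d * (N * (d * ((d - 1).factorial * A ^ (d - 1)))) < ∑ j, k j) :
    ∃ r k' : Fin d → ℕ, (∀ j, k j = N * r j + k' j) ∧ 1 ≤ ∑ j, r j ∧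
      ∑ j, r j ≤ d * ((d - 1).factorial * A ^ (d - 1)) ∧
      (∀ c ∈ C, ∑ j, r j * c0 j ≤ ∑ j, r j * c j) ∧
      (∀ c ∈ C, ∑ j, k' j * c0 j ≤ ∑ j, k' j * c j) := by
  classical
  let T : Finset (Fin d → ℤ) := (Finset.univ.image fun j => (Pi.single j 1 : Fin d → ℤ)) ∪
    C.image fun c => fun j => (c j : ℤ) - c0 j
  have hco : ∀ j, (Pi.single j 1 : Fin d → ℤ) ∈ T := fun j =>
    Finset.mem_union_left _ (Finset.mem_image_of_mem _ (Finset.mem_univ j))
  have hcc : ∀ c ∈ C, (fun j => (c j : ℤ) - c0 j) ∈ T := fun c hc =>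
    Finset.mem_union_right _ (Finset.mem_image_of_mem (fun c : Fin d → ℕ => fun j =>
      (c j : ℤ) - c0 j) hc)
  have hA' : (1 : ℤ) ≤ A := by exact_mod_cast hA
  have hT : ∀ t ∈ T, ∀ j, |t j| ≤ A := by
    intro t ht j
    rcases Finset.mem_union.1 ht with h | h
    · obtain ⟨i, -, rfl⟩ := Finset.mem_image.1 h
      by_cases hij : j = i
      · subst hij
        simpa using hA'
      · rw [Pi.single_eq_of_ne hij]
        simp
    · obtain ⟨c, hc, rfl⟩ := Finset.mem_image.1 h
      have h1 := hC c hc j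
      have h2 := hC c0 hc0 j
      rw [abs_le]
      constructor
      · show -(A : ℤ) ≤ (c j : ℤ) - c0 j
        omega
      · show (c j : ℤ) - c0 j ≤ A
        omega
  have hev : ∀ (c : Fin d → ℕ) (x : Fin d → ℚ), ev (fun j => (c j : ℤ) - c0 j) x =
      ∑ j, x j * c j - ∑ j, x j * c0 j := by
    intro c x
    unfold ev
    rw [← Finset.sum_sub_distrib]
    refine Finset.sum_congr rfl fun j _ => ?_
    push_cast
    ring
  have hx : ∀ t ∈ T, 0 ≤ ev t (fun j => (k j : ℚ)) := by
    intro t ht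
    rcases Finset.mem_union.1 ht with h | h
    · obtain ⟨i, -, rfl⟩ := Finset.mem_image.1 h
      rw [ev_single]
      exact Nat.cast_nonneg _
    · obtain ⟨c, hc, rfl⟩ := Finset.mem_image.1 h
      rw [hev]
      have h1 : ((∑ j, k j * c0 j : ℕ) : ℚ) ≤ ((∑ j, k j * c j : ℕ) : ℚ) := by
        exact_mod_cast hmin c hc
      push_cast at h1
      linarith
  obtain ⟨r, hr1, hr2, hr3, hr4⟩ := split_real A hA T hT hco (N : ℚ) (Nat.cast_nonneg N) d 0
    (by omega) (fun i => Fin.elim0 i) (fun i => Fin.elim0 i) (linearIndependent_empty_type)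
    (fun j => (k j : ℚ)) hx (fun i => Fin.elim0 i) (by exact_mod_cast hk)
  have hr0 : ∀ j, 0 ≤ r j := by
    intro j
    have := hr1 _ (hco j)
    rw [ev_single] at this
    exact_mod_cast this
  have hrk : ∀ j, (N : ℤ) * r j ≤ k j := by
    intro j
    have := hr4 _ (hco j)
    rw [ev_single, Pi.add_apply, Pi.smul_apply, smul_eq_mul] at this
    have h2 : (N : ℚ) * r j ≤ k j := by linarith
    exact_mod_cast h2
  have hrn : ∀ j, ((r j).toNat : ℤ) = r j := fun j => Int.toNat_of_nonneg (hr0 j)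
  have hkn : ∀ j, k j = N * (r j).toNat + (k j - N * (r j).toNat) := by
    intro j
    have h1 : ((N * (r j).toNat : ℕ) : ℤ) ≤ k j := by
      push_cast
      rw [hrn j]
      exact hrk j
    have h2 : N * (r j).toNat ≤ k j := by exact_mod_cast h1
    omega
  have hrq : ∀ j, ((r j).toNat : ℚ) = r j := by
    intro j
    exact_mod_cast hrn j
  have hkq : ∀ j, ((k j - N * (r j).toNat : ℕ) : ℚ) = k j - N * r j := by
    intro j
    have h1 := congrArg (fun z : ℕ => (z : ℚ)) (hkn j)
    simp only [Nat.cast_add, Nat.cast_mul, hrq] at h1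
    linarith
  refine ⟨fun j => (r j).toNat, fun j => k j - N * (r j).toNat, hkn, ?_, ?_, ?_, ?_⟩
  · obtain ⟨l, hl0⟩ : ∃ j, r j ≠ 0 := by
      by_contra hcon
      push Not at hcon
      exact hr2 (funext hcon)
    have h1 : 1 ≤ (r l).toNat := by
      have := hr0 l
      omega
    exact h1.trans (Finset.single_le_sum (f := fun j => (r j).toNat) (fun j _ => Nat.zero_le _)
      (Finset.mem_univ l))
  · have h1 : ∀ j ∈ (Finset.univ : Finset (Fin d)), (r j).toNat ≤
        (d - 1).factorial * A ^ (d - 1) := by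
      intro j _
      have h2 := (le_abs_self (r j)).trans (hr3 j)
      rw [← hrn j] at h2
      exact_mod_cast h2
    have h2 := Finset.sum_le_card_nsmul _ _ _ h1
    rw [Finset.card_univ, Fintype.card_fin, smul_eq_mul] at h2
    exact h2
  · intro c hc
    have h1 := hr1 _ (hcc c hc)
    rw [hev] at h1
    have h2 : ((∑ j, (r j).toNat * c0 j : ℕ) : ℚ) ≤ ((∑ j, (r j).toNat * c j : ℕ) : ℚ) := by
      push_cast
      simp only [hrq]
      linarith
    exact_mod_cast h2
  · intro c hc
    have h1 := hr4 _ (hcc c hc)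
    rw [hev] at h1
    have h2 : ((∑ j, (k j - N * (r j).toNat) * c0 j : ℕ) : ℚ) ≤
        ((∑ j, (k j - N * (r j).toNat) * c j : ℕ) : ℚ) := by
      simp only [Nat.cast_sum, Nat.cast_mul, hkq]
      simp only [Pi.add_apply, Pi.smul_apply, smul_eq_mul] at h1
      have h3 : ∀ e : Fin d → ℕ, ∑ j, ((k j : ℚ) - N * r j) * e j =
          ∑ j, ((k j : ℚ) + -(N : ℚ) * r j) * e j := fun e =>
        Finset.sum_congr rfl fun j _ => by ring
      rw [h3, h3]
      linarith
    exact_mod_cast h2

/-- **Gordan's lemma with an explicit bound.** -/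
theorem gordan_explicit (d N M A : ℕ) (hN : 1 ≤ N) (hA : 1 ≤ A) (hM : M ≤ A)
    (C : Finset (Fin d → ℕ)) (hC0 : C.Nonempty) (hC : ∀ c ∈ C, ∀ j, c j ≤ M) :
    ∀ (k : Fin d → ℕ) (ν : ℕ), (∀ c ∈ C, N * ν ≤ ∑ j, k j * c j) →
    ∃ L : List ((Fin d → ℕ) × ℕ), (∀ y ∈ L,
      ∑ j, y.1 j ≤ d * (N * (d * ((d - 1).factorial * A ^ (d - 1)))) ∧
      ∀ c ∈ C, N * y.2 ≤ ∑ j, y.1 j * c j) ∧ (L.map Prod.fst).sum = k ∧
      (L.map Prod.snd).sum = ν := by
  classical
  suffices h : ∀ (n : ℕ) (k : Fin d → ℕ) (ν : ℕ), ∑ j, k j = n →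
      (∀ c ∈ C, N * ν ≤ ∑ j, k j * c j) →
      ∃ L : List ((Fin d → ℕ) × ℕ), (∀ y ∈ L,
        ∑ j, y.1 j ≤ d * (N * (d * ((d - 1).factorial * A ^ (d - 1)))) ∧
        ∀ c ∈ C, N * y.2 ≤ ∑ j, y.1 j * c j) ∧ (L.map Prod.fst).sum = k ∧
        (L.map Prod.snd).sum = ν from fun k ν hk => h _ k ν rfl hk
  intro n
  induction n using Nat.strong_induction_on with
  | _ n ih =>
    intro k ν hn hk
    by_cases hle : ∑ j, k j ≤ d * (N * (d * ((d - 1).factorial * A ^ (d - 1))))
    · refine ⟨[(k, ν)], ?_, by simp, by simp⟩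
      intro y hy
      rw [List.mem_singleton] at hy
      subst hy
      exact ⟨hle, hk⟩
    · push Not at hle
      obtain ⟨c0, hc0, hmin⟩ := C.exists_min_image (fun c => ∑ j, k j * c j) hC0
      obtain ⟨r, k', h1, h2, h3, h4, h5⟩ := gordan_step d N M A hA hM C hC c0 hc0 k hmin hle
      have hsum : ∀ c : Fin d → ℕ, ∑ j, k j * c j = N * ∑ j, r j * c j + ∑ j, k' j * c j := by
        intro c
        rw [Finset.mul_sum, ← Finset.sum_add_distrib]
        refine Finset.sum_congr rfl fun j _ => ?_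
        rw [h1 j]
        ring
      have hlt : ∑ j, k' j < n := by
        have h6 : ∑ j, k j = N * ∑ j, r j + ∑ j, k' j := by
          rw [Finset.mul_sum, ← Finset.sum_add_distrib]
          exact Finset.sum_congr rfl fun j _ => h1 j
        have h7 : 1 ≤ N * ∑ j, r j := Nat.one_le_iff_ne_zero.2 (Nat.mul_ne_zero (by omega)
          (by omega))
        omega
      have hd : 1 ≤ d := by
        rcases Nat.eq_zero_or_pos d with h | h
        · subst h
          simp at h2
        · exact h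
      obtain ⟨L, hL1, hL2, hL3⟩ := ih _ hlt k' (ν - min (∑ j, r j * c0 j) ν) rfl (by
        intro c hc
        rcases le_total (∑ j, r j * c0 j) ν with h6 | h6
        · rw [min_eq_left h6, Nat.mul_sub]
          have h7 := hk c0 hc0
          rw [hsum] at h7
          have h8 := h5 c hc
          omega
        · rw [min_eq_right h6, Nat.sub_self, Nat.mul_zero]
          exact Nat.zero_le _)
      refine ⟨(fun j => N * r j, min (∑ j, r j * c0 j) ν) :: L, ?_, ?_, ?_⟩
      · intro y hy
        rcases List.mem_cons.1 hy with rfl | hy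
        · constructor
          · show ∑ j, N * r j ≤ _
            rw [← Finset.mul_sum]
            calc N * ∑ j, r j ≤ N * (d * ((d - 1).factorial * A ^ (d - 1))) :=
                  Nat.mul_le_mul_left N h3
              _ ≤ d * (N * (d * ((d - 1).factorial * A ^ (d - 1)))) :=
                  Nat.le_mul_of_pos_left _ hd
          · intro c hc
            show N * min (∑ j, r j * c0 j) ν ≤ ∑ j, N * r j * c j
            have h6 : ∑ j, N * r j * c j = N * ∑ j, r j * c j := by
              rw [Finset.mul_sum]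
              exact Finset.sum_congr rfl fun j _ => by ring
            rw [h6]
            exact Nat.mul_le_mul_left N ((min_le_left _ _).trans (h4 c hc))
        · exact hL1 y hy
      · rw [List.map_cons, List.sum_cons, hL2]
        funext j
        exact (h1 j).symm
      · rw [List.map_cons, List.sum_cons, hL3]
        show min (∑ j, r j * c0 j) ν + (ν - min (∑ j, r j * c0 j) ν) = ν
        have := min_le_right (∑ j, r j * c0 j) ν
        omega

end Pool.Agent.Helper75.BG
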