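import Mathlib

/-!
# Eigenvalues on tensor products
-/

set_option autoImplicit false

namespace Pool.Agent.Helper75.BG

theorem exists_eig {W : Type*} [AddCommGroup W] [Module ℂ W] [FiniteDimensional ℂ W]
    (A : Module.End ℂ W) (E : Submodule ℂ W) (hE : E ≠ ⊥) (hA : ∀ x ∈ E, A x ∈ E) :
    ∃ (μ : ℂ) (w : W), w ∈ E ∧ w ≠ 0 ∧ A w = μ • w := by
  haveI : Nontrivial E := Submodule.nontrivial_iff_ne_bot.2 hE
  obtain ⟨μ, hμ⟩ := Module.End.exists_eigenvalue (A.restrict hA)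
  obtain ⟨w, hw⟩ := hμ.exists_hasEigenvector
  refine ⟨μ, w, w.2, fun h => hw.2 (Subtype.ext h), ?_⟩
  have h1 := hw.apply_eq_smul
  exact congrArg Subtype.val h1

/-- eigenvalues of a product of commuting endomorphisms -/
theorem comm_eig {W : Type*} [AddCommGroup W] [Module ℂ W] [FiniteDimensional ℂ W]
    (A B : Module.End ℂ W) (E : Submodule ℂ W) (hA : ∀ x ∈ E, A x ∈ E) (hB : ∀ x ∈ E, B x ∈ E)
    (hAB : ∀ x, A (B x) = B (A x)) {v : W} (hv : v ∈ E) (hv0 : v ≠ 0) {β : ℂ}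
    (h : A (B v) = β • v) : ∃ (μ γ : ℂ) (w : W), w ∈ E ∧ w ≠ 0 ∧ A w = μ • w ∧ B w = γ • w ∧
      β = μ * γ := by
  let E1 : Submodule ℂ W := E ⊓ LinearMap.ker (A * B - β • (1 : Module.End ℂ W))
  have hE1 : ∀ x, x ∈ E1 ↔ x ∈ E ∧ A (B x) = β • x := by
    intro x
    rw [Submodule.mem_inf, LinearMap.mem_ker, LinearMap.sub_apply, LinearMap.smul_apply,
      Module.End.one_apply, Module.End.mul_apply, sub_eq_zero]
  have h1 : E1 ≠ ⊥ := (Submodule.ne_bot_iff _).2 ⟨v, (hE1 v).2 ⟨hv, h⟩, hv0⟩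
  obtain ⟨μ, w1, hw1, hw10, hw1A⟩ := exists_eig A E1 h1 (fun x hx => by
    rw [hE1] at hx ⊢
    refine ⟨hA x hx.1, ?_⟩
    rw [← hAB, hx.2, map_smul])
  let E2 : Submodule ℂ W := E1 ⊓ LinearMap.ker (A - μ • (1 : Module.End ℂ W))
  have hE2 : ∀ x, x ∈ E2 ↔ x ∈ E1 ∧ A x = μ • x := by
    intro x
    rw [Submodule.mem_inf, LinearMap.mem_ker, LinearMap.sub_apply, LinearMap.smul_apply,
      Module.End.one_apply, sub_eq_zero]
  have h2 : E2 ≠ ⊥ := (Submodule.ne_bot_iff _).2 ⟨w1, (hE2 w1).2 ⟨hw1, hw1A⟩, hw10⟩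
  obtain ⟨γ, w, hw, hw0, hwB⟩ := exists_eig B E2 h2 (fun x hx => by
    rw [hE2, hE1] at hx ⊢
    obtain ⟨⟨h3, h4⟩, h5⟩ := hx
    refine ⟨⟨hB x h3, ?_⟩, ?_⟩
    · rw [hAB (B x), h4, map_smul]
    · rw [hAB, h5, map_smul])
  rw [hE2, hE1] at hw
  obtain ⟨⟨h3, h4⟩, h5⟩ := hw
  refine ⟨μ, γ, w, h3, hw0, h5, hwB, ?_⟩
  rw [hwB, map_smul, h5, smul_smul] at h4
  have h6 : (γ * μ - β) • w = 0 := by rw [sub_smul, h4, sub_self]
  rcases smul_eq_zero.1 h6 with h7 | h7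
  · rw [mul_comm μ γ]
    exact (sub_eq_zero.1 h7).symm
  · exact absurd h7 hw0

section

variable {X Y : Type} [Fintype X] [Fintype Y]

/-- the matrix `f` on functions -/
def mact (f : X → X → ℂ) : Module.End ℂ (X → ℂ) where
  toFun u := fun x => ∑ x', f x x' * u x'
  map_add' u v := by
    funext x
    simp only [Pi.add_apply, mul_add, Finset.sum_add_distrib]
  map_smul' c u := by
    funext x
    simp only [Pi.smul_apply, smul_eq_mul, RingHom.id_apply, Finset.mul_sum]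
    exact Finset.sum_congr rfl fun _ _ => by ring

/-- the matrix on the first variable -/
def act1 (f : X → X → ℂ) : Module.End ℂ (X × Y → ℂ) where
  toFun u := fun x => ∑ x', f x.1 x' * u (x', x.2)
  map_add' u v := by
    funext x
    simp only [Pi.add_apply, mul_add, Finset.sum_add_distrib]
  map_smul' c u := by
    funext x
    simp only [Pi.smul_apply, smul_eq_mul, RingHom.id_apply, Finset.mul_sum]
    exact Finset.sum_congr rfl fun _ _ => by ring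

/-- the matrix on the second variable -/
def act2 (g : Y → Y → ℂ) : Module.End ℂ (X × Y → ℂ) where
  toFun u := fun x => ∑ y', g x.2 y' * u (x.1, y')
  map_add' u v := by
    funext x
    simp only [Pi.add_apply, mul_add, Finset.sum_add_distrib]
  map_smul' c u := by
    funext x
    simp only [Pi.smul_apply, smul_eq_mul, RingHom.id_apply, Finset.mul_sum]
    exact Finset.sum_congr rfl fun _ _ => by ring

/-- functions with values in `U` in the first variable and in `U'` in the second variable -/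
def bi (U : Submodule ℂ (X → ℂ)) (U' : Submodule ℂ (Y → ℂ)) : Submodule ℂ (X × Y → ℂ) where
  carrier := {v | (∀ y, (fun x => v (x, y)) ∈ U) ∧ ∀ x, (fun y => v (x, y)) ∈ U'}
  add_mem' ha hb := ⟨fun y => U.add_mem (ha.1 y) (hb.1 y), fun x => U'.add_mem (ha.2 x) (hb.2 x)⟩
  zero_mem' := ⟨fun _ => U.zero_mem, fun _ => U'.zero_mem⟩
  smul_mem' c _ ha := ⟨fun y => U.smul_mem c (ha.1 y), fun x => U'.smul_mem c (ha.2 x)⟩

theorem act1_bi (f : X → X → ℂ) (U : Submodule ℂ (X → ℂ)) (U' : Submodule ℂ (Y → ℂ))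
    (hU : ∀ u ∈ U, mact f u ∈ U) {v : X × Y → ℂ} (hv : v ∈ bi U U') : act1 f v ∈ bi U U' := by
  refine ⟨fun y => hU _ (hv.1 y), fun x => ?_⟩
  have h1 : (fun y => act1 f v (x, y)) = ∑ x', f x x' • fun y => v (x', y) := by
    funext y
    rw [Finset.sum_apply]
    rfl
  rw [h1]
  exact Submodule.sum_mem _ fun x' _ => U'.smul_mem _ (hv.2 x')

theorem act2_bi (g : Y → Y → ℂ) (U : Submodule ℂ (X → ℂ)) (U' : Submodule ℂ (Y → ℂ))
    (hU' : ∀ u ∈ U', mact g u ∈ U') {v : X × Y → ℂ} (hv : v ∈ bi U U') : act2 g v ∈ bi U U' := by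
  refine ⟨fun y => ?_, fun x => hU' _ (hv.2 x)⟩
  have h1 : (fun x => act2 g v (x, y)) = ∑ y', g y y' • fun x => v (x, y') := by
    funext x
    rw [Finset.sum_apply]
    rfl
  rw [h1]
  exact Submodule.sum_mem _ fun y' _ => U.smul_mem _ (hv.1 y')

theorem act_comm (f : X → X → ℂ) (g : Y → Y → ℂ) (v : X × Y → ℂ) :
    act1 f (act2 g v) = act2 g (act1 f v) := by
  funext x
  show ∑ x', f x.1 x' * ∑ y', g x.2 y' * v (x', y') = ∑ y', g x.2 y' * ∑ x', f x.1 x' * v (x', y')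
  simp only [Finset.mul_sum]
  rw [Finset.sum_comm]
  exact Finset.sum_congr rfl fun _ _ => Finset.sum_congr rfl fun _ _ => by ring

/-- eigenvalues on tensor products -/
theorem kron_eig (f : X → X → ℂ) (g : Y → Y → ℂ) (U : Submodule ℂ (X → ℂ))
    (U' : Submodule ℂ (Y → ℂ)) (hU : ∀ u ∈ U, mact f u ∈ U) (hU' : ∀ u ∈ U', mact g u ∈ U')
    {v : X × Y → ℂ} (hv : v ∈ bi U U') (hv0 : v ≠ 0) {β : ℂ}
    (h : act1 f (act2 g v) = β • v) : ∃ μ γ : ℂ, (∃ u ∈ U, u ≠ 0 ∧ mact f u = μ • u) ∧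
      (∃ u ∈ U', u ≠ 0 ∧ mact g u = γ • u) ∧ β = μ * γ := by
  obtain ⟨μ, γ, w, hw, hw0, hwA, hwB, hβ⟩ := comm_eig (act1 f) (act2 g) (bi U U')
    (fun x hx => act1_bi f U U' hU hx) (fun x hx => act2_bi g U U' hU' hx)
    (fun x => act_comm f g x) hv hv0 h
  obtain ⟨⟨x0, y0⟩, h0⟩ : ∃ x, w x ≠ 0 := by
    by_contra hcon
    push Not at hcon
    exact hw0 (funext hcon)
  refine ⟨μ, γ, ⟨fun x => w (x, y0), hw.1 y0, fun h1 => h0 (congrFun h1 x0), ?_⟩,
    ⟨fun y => w (x0, y), hw.2 x0, fun h1 => h0 (congrFun h1 y0), ?_⟩, hβ⟩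
  · funext x
    exact congrFun hwA (x, y0)
  · funext y
    exact congrFun hwB (x0, y)

end

end Pool.Agent.Helper75.BG
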