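import Pool.Agent.Helper75.BG.Defs

/-!
# The Galois coniveau in terms of words

`galois_iff`: `u` is in the Galois coniveau iff it is supported on the words of degree `i` whose product of eigenvalues `β`
satisfies the integrality conditions.
-/

set_option autoImplicit false

namespace Pool.Agent.Helper75.BG

open Module.End

variable {I : Type} [Fintype I] [LinearOrder I]

/-- the product of the eigenvalues of the letters of a word -/
noncomputable def eig (F : Matrix I I ℂ) {m : ℕ} (y : Fin m → I) : ℂ := ∏ p, F (y p) (y p)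

/-- the word `y` contributes to `N^ν` -/
def Good (q : ℕ) (wt : I → ℕ) (F : Matrix I I ℂ) {m : ℕ} (ν : ℕ) (y : Fin m → I) : Prop :=
  IsIntegral ℤ (eig F y / (q : ℂ) ^ ν) ∧ IsIntegral ℤ ((q : ℂ) ^ ((∑ p, wt (y p)) - ν) / eig F y)

omit [LinearOrder I] in
theorem tp_add {m : ℕ} (F : Matrix I I ℂ) (u v : (Fin m → I) → ℂ) :
    tensorPower F (u + v) = tensorPower F u + tensorPower F v := by
  funext x
  simp only [tensorPower, Pi.add_apply, mul_add, Finset.sum_add_distrib]

omit [LinearOrder I] in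
theorem tp_smul {m : ℕ} (F : Matrix I I ℂ) (c : ℂ) (u : (Fin m → I) → ℂ) :
    tensorPower F (c • u) = c • tensorPower F u := by
  funext x
  simp only [tensorPower, Pi.smul_apply, smul_eq_mul, Finset.mul_sum]
  exact Finset.sum_congr rfl fun y _ => by ring

/-- the Frobenius as a linear map -/
noncomputable def T {m : ℕ} (F : Matrix I I ℂ) : Module.End ℂ ((Fin m → I) → ℂ) where
  toFun := tensorPower F
  map_add' := tp_add F
  map_smul' := tp_smul F

omit [LinearOrder I] in
theorem T_apply {m : ℕ} (F : Matrix I I ℂ) (u : (Fin m → I) → ℂ) : T F u = tensorPower F u := rfl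

variable {F : Matrix I I ℂ} {wt : I → ℕ} {m : ℕ}

/-- Jordan form -/
def Jor (wt : I → ℕ) (F : Matrix I I ℂ) : Prop :=
  ∀ x y, F x y ≠ 0 → x ≤ y ∧ wt x = wt y ∧ F x x = F y y

theorem jor_word (hj : Jor wt F) {x y : Fin m → I} (h : ∏ p, F (x p) (y p) ≠ 0) :
    x ≤ y ∧ ∑ p, wt (x p) = ∑ p, wt (y p) ∧ eig F x = eig F y := by
  have h1 : ∀ p, F (x p) (y p) ≠ 0 := fun p => Finset.prod_ne_zero_iff.1 h p (Finset.mem_univ p)
  refine ⟨fun p => (hj _ _ (h1 p)).1, Finset.sum_congr rfl fun p _ => (hj _ _ (h1 p)).2.1,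
    Finset.prod_congr rfl fun p _ => (hj _ _ (h1 p)).2.2⟩

/-- the only eigenvalue on the words with product `β` is `β` -/
theorem eig_unique (hj : Jor wt F) {u : (Fin m → I) → ℂ} {β β' : ℂ}
    (hu : ∀ y, u y ≠ 0 → eig F y = β) (h0 : u ≠ 0) (h : T F u = β' • u) : β' = β := by
  classical
  obtain ⟨y0, hy0⟩ : ∃ y, u y ≠ 0 := by
    by_contra hcon
    push Not at hcon
    exact h0 (funext hcon)
  obtain ⟨y, hy1, hy2⟩ := (Finset.univ.filter fun y => u y ≠ 0).exists_maximal
    ⟨y0, Finset.mem_filter.2 ⟨Finset.mem_univ _, hy0⟩⟩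
  have hy : u y ≠ 0 := (Finset.mem_filter.1 hy1).2
  have h1 : T F u y = eig F y * u y := by
    rw [T_apply]
    unfold tensorPower
    rw [Finset.sum_eq_single y]
    · rfl
    · intro z _ hz
      by_cases h2 : ∏ p, F (y p) (z p) = 0
      · rw [h2, zero_mul]
      · have h3 := (jor_word hj h2).1
        by_cases h4 : u z = 0
        · rw [h4, mul_zero]
        · exact absurd (le_antisymm (hy2 (Finset.mem_filter.2 ⟨Finset.mem_univ z, h4⟩) h3) h3) hz
    · intro h2
      exact absurd (Finset.mem_univ y) h2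
  rw [h, hu y hy, Pi.smul_apply, smul_eq_mul] at h1
  exact mul_right_cancel₀ hy h1

/-- projection to the words with product `β` -/
noncomputable def pr (F : Matrix I I ℂ) (β : ℂ) : Module.End ℂ ((Fin m → I) → ℂ) := by
  classical
  exact
  { toFun := fun u y => if eig F y = β then u y else 0
    map_add' := fun u v => by
      funext y
      simp only [Pi.add_apply]
      split_ifs <;> simp
    map_smul' := fun c u => by
      funext y
      simp only [Pi.smul_apply, smul_eq_mul, RingHom.id_apply]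
      split_ifs <;> simp }

theorem pr_apply_of {β : ℂ} {u : (Fin m → I) → ℂ} {y : Fin m → I} (h : eig F y = β) :
    pr F β u y = u y := by
  classical
  exact if_pos h

theorem pr_apply_ne {β : ℂ} {u : (Fin m → I) → ℂ} {y : Fin m → I} (h : eig F y ≠ β) :
    pr F β u y = 0 := by
  classical
  exact if_neg h

theorem pr_T (hj : Jor wt F) (β : ℂ) (u : (Fin m → I) → ℂ) : pr F β (T F u) = T F (pr F β u) := by
  funext x
  by_cases hx : eig F x = β
  · rw [pr_apply_of hx, T_apply, T_apply]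
    unfold tensorPower
    refine Finset.sum_congr rfl fun y _ => ?_
    by_cases h : ∏ p, F (x p) (y p) = 0
    · rw [h, zero_mul, zero_mul]
    · rw [pr_apply_of ((jor_word hj h).2.2.symm.trans hx)]
  · rw [pr_apply_ne hx, T_apply]
    unfold tensorPower
    symm
    refine Finset.sum_eq_zero fun y _ => ?_
    by_cases h : ∏ p, F (x p) (y p) = 0
    · rw [h, zero_mul]
    · rw [pr_apply_ne (fun h' => hx ((jor_word hj h).2.2.trans h')), mul_zero]

/-- an eigenvector below a generalised eigenvector -/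
theorem exists_eigenvector {W : Type*} [AddCommGroup W] [Module ℂ W] (f : Module.End ℂ W) (μ : ℂ)
    (U : Submodule ℂ W) (hU : ∀ x ∈ U, f x ∈ U) : ∀ (k : ℕ) (v : W), v ∈ U → v ≠ 0 →
    ((f - μ • (1 : Module.End ℂ W)) ^ k) v = 0 → ∃ w ∈ U, w ≠ 0 ∧ f w = μ • w := by
  intro k
  induction k with
  | zero =>
      intro v _ hv h
      rw [pow_zero, Module.End.one_apply] at h
      exact absurd h hv
  | succ k ih =>
      intro v hvU hv h
      by_cases h1 : (f - μ • (1 : Module.End ℂ W)) v = 0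
      · refine ⟨v, hvU, hv, ?_⟩
        rw [LinearMap.sub_apply, LinearMap.smul_apply, Module.End.one_apply, sub_eq_zero] at h1
        exact h1
      · refine ih ((f - μ • (1 : Module.End ℂ W)) v) ?_ h1 ?_
        · rw [LinearMap.sub_apply, LinearMap.smul_apply, Module.End.one_apply]
          exact U.sub_mem (hU v hvU) (U.smul_mem μ hvU)
        · rw [pow_succ, Module.End.mul_apply] at h
          exact h

/-- `T - μ` -/
noncomputable def Tm (m : ℕ) (F : Matrix I I ℂ) (μ : ℂ) : Module.End ℂ ((Fin m → I) → ℂ) :=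
  T F - μ • (1 : Module.End ℂ ((Fin m → I) → ℂ))

theorem pow_pr (hj : Jor wt F) (β μ : ℂ) (k : ℕ) (u : (Fin m → I) → ℂ) :
    pr F β ((Tm m F μ ^ k) u) = (Tm m F μ ^ k) (pr F β u) := by
  induction k generalizing u with
  | zero => rfl
  | succ k ih =>
      rw [pow_succ, Module.End.mul_apply, Module.End.mul_apply, ih]
      congr 1
      unfold Tm
      rw [LinearMap.sub_apply, LinearMap.sub_apply, map_sub, pr_T hj, LinearMap.smul_apply,
        LinearMap.smul_apply, Module.End.one_apply, Module.End.one_apply, map_smul]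

/-- a generalised eigenvector is supported on the words with product `μ` -/
theorem gen_support (hj : Jor wt F) {μ : ℂ} {k : ℕ} {u : (Fin m → I) → ℂ}
    (h : (Tm m F μ ^ k) u = 0) {y : Fin m → I}
    (hy : u y ≠ 0) : eig F y = μ := by
  have h1 := pow_pr hj (eig F y) μ k u
  rw [h, map_zero] at h1
  let S : Submodule ℂ ((Fin m → I) → ℂ) :=
    { carrier := {v | ∀ z, v z ≠ 0 → eig F z = eig F y}
      add_mem' := by
        intro a b ha hb z hz
        rw [Pi.add_apply] at hz
        by_cases h2 : a z = 0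
        · exact hb z (fun h3 => hz (by rw [h2, h3, add_zero]))
        · exact ha z h2
      zero_mem' := fun z hz => absurd rfl hz
      smul_mem' := by
        intro c a ha z hz
        exact ha z (fun h3 => hz (by rw [Pi.smul_apply, h3, smul_zero])) }
  have hS : ∀ x ∈ S, T F x ∈ S := by
    intro x hx z hz
    rw [T_apply] at hz
    obtain ⟨z', -, h2⟩ := Finset.exists_ne_zero_of_sum_ne_zero hz
    exact (jor_word hj (left_ne_zero_of_mul h2)).2.2.trans (hx z' (right_ne_zero_of_mul h2))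
  have hpS : pr F (eig F y) u ∈ S := by
    intro z hz
    by_contra h2
    exact hz (pr_apply_ne h2)
  have hp0 : pr F (eig F y) u ≠ 0 := by
    intro h2
    have h3 := congrFun h2 y
    rw [pr_apply_of rfl] at h3
    exact hy h3
  obtain ⟨w, hwS, hw0, hw⟩ := exists_eigenvector (T F) μ S hS k _ hpS hp0 h1.symm
  exact (eig_unique hj hwS hw0 hw).symm

variable {Φ : Set (ℕ × Matrix I I ℂ)}

/-- Jordan form, for several Frobenii -/
def Jors (wt : I → ℕ) (Φ : Set (ℕ × Matrix I I ℂ)) : Prop :=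
  ∀ z ∈ Φ, ∀ x y, z.2 x y ≠ 0 → x ≤ y ∧ wt x = wt y ∧ ∀ z' ∈ Φ, z'.2 x x = z'.2 y y

omit [Fintype I] in
theorem Jors.one (hj : Jors wt Φ) {z : ℕ × Matrix I I ℂ} (hz : z ∈ Φ) : Jor wt z.2 :=
  fun x y h => ⟨(hj z hz x y h).1, (hj z hz x y h).2.1, (hj z hz x y h).2.2 z hz⟩

theorem jors_word (hj : Jors wt Φ) {z : ℕ × Matrix I I ℂ} (hz : z ∈ Φ) {x y : Fin m → I}
    (h : ∏ p, z.2 (x p) (y p) ≠ 0) : ∑ p, wt (x p) = ∑ p, wt (y p) ∧
    ∀ z' ∈ Φ, eig z'.2 x = eig z'.2 y := by
  have h1 : ∀ p, z.2 (x p) (y p) ≠ 0 := fun p => Finset.prod_ne_zero_iff.1 h p (Finset.mem_univ p)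
  exact ⟨Finset.sum_congr rfl fun p _ => (hj z hz _ _ (h1 p)).2.1,
    fun z' hz' => Finset.prod_congr rfl fun p _ => (hj z hz _ _ (h1 p)).2.2 z' hz'⟩

/-- the span of the good words of degree `i` -/
def good (Φ : Set (ℕ × Matrix I I ℂ)) (wt : I → ℕ) (m i ν : ℕ) :
    Submodule ℂ ((Fin m → I) → ℂ) where
  carrier := {u | ∀ y, u y ≠ 0 → (∀ z ∈ Φ, Good z.1 wt z.2 ν y) ∧ ∑ p, wt (y p) = i}
  add_mem' := by
    intro a b ha hb z hz
    rw [Pi.add_apply] at hz
    by_cases h2 : a z = 0
    · exact hb z (fun h3 => hz (by rw [h2, h3, add_zero]))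
    · exact ha z h2
  zero_mem' := fun z hz => absurd rfl hz
  smul_mem' := by
    intro c a ha z hz
    exact ha z (fun h3 => hz (by rw [Pi.smul_apply, h3, smul_zero]))

theorem single_effective (hj : Jors wt Φ) {i ν : ℕ} {y : Fin m → I}
    (hy : ∀ z ∈ Φ, Good z.1 wt z.2 ν y) (hi : ∑ p, wt (y p) = i) :
    ∃ U, IsEffective Φ wt m i ν U ∧ Pi.single y 1 ∈ U := by
  let S : Submodule ℂ ((Fin m → I) → ℂ) :=
    { carrier := {v | ∀ w, v w ≠ 0 → (∀ z ∈ Φ, eig z.2 w = eig z.2 y) ∧ ∑ p, wt (w p) = i}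
      add_mem' := by
        intro a b ha hb z hz
        rw [Pi.add_apply] at hz
        by_cases h2 : a z = 0
        · exact hb z (fun h3 => hz (by rw [h2, h3, add_zero]))
        · exact ha z h2
      zero_mem' := fun z hz => absurd rfl hz
      smul_mem' := by
        intro c a ha z hz
        exact ha z (fun h3 => hz (by rw [Pi.smul_apply, h3, smul_zero])) }
  refine ⟨S, ⟨fun u hu y hy => (hu y hy).2, ?_, ?_⟩, ?_⟩
  · intro z hz u hu w hw
    obtain ⟨w', -, h2⟩ := Finset.exists_ne_zero_of_sum_ne_zero hw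
    have h3 := jors_word hj hz (left_ne_zero_of_mul h2)
    have h4 := hu w' (right_ne_zero_of_mul h2)
    exact ⟨fun z' hz' => (h3.2 z' hz').trans (h4.1 z' hz'), h3.1.trans h4.2⟩
  · intro z hz u hu hu0 β hβ
    have h1 : β = eig z.2 y := eig_unique (hj.one hz) (fun w hw => (hu w hw).1 z hz) hu0 hβ
    rw [h1, ← hi]
    exact hy z hz
  · intro w hw
    by_cases h1 : w = y
    · rw [h1]
      exact ⟨fun _ _ => rfl, hi⟩
    · exact absurd (Pi.single_eq_of_ne h1 _) hw

theorem effective_le (hj : Jors wt Φ) {i ν : ℕ} {U : Submodule ℂ ((Fin m → I) → ℂ)}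
    (hU : IsEffective Φ wt m i ν U) : U ≤ good Φ wt m i ν := by
  intro u hu y hy
  refine ⟨fun z hz => ?_, hU.degree u hu y hy⟩
  have hst : ∀ x ∈ U, T z.2 x ∈ U := hU.stable z hz
  have h1 := Submodule.eq_iSup_inf_genEigenspace (p := U) (f := T z.2) ⊤ hst
    (Module.End.iSup_maxGenEigenspace_eq_top (T z.2))
  have h2 : u ∈ ⨆ μ, U ⊓ (T z.2).genEigenspace μ ⊤ := by
    rw [← h1]
    exact hu
  -- the part with eigenvalue `eig F y` is not zero
  have key : ∀ v ∈ ⨆ μ, U ⊓ (T z.2).genEigenspace μ ⊤, v y ≠ 0 → ∃ w ∈ U, w ≠ 0 ∧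
      T z.2 w = eig z.2 y • w := by
    intro v hv
    refine Submodule.iSup_induction _ (motive := fun v => v y ≠ 0 → ∃ w ∈ U, w ≠ 0 ∧
      T z.2 w = eig z.2 y • w) hv ?_ ?_ ?_
    · intro μ x hx hxy
      obtain ⟨hx1, hx2⟩ := Submodule.mem_inf.1 hx
      obtain ⟨k, hk'⟩ := (Module.End.mem_maxGenEigenspace (T z.2) μ x).1 hx2
      have h3 := gen_support (hj.one hz) hk' hxy
      have h4 : x ≠ 0 := by
        intro h5
        rw [h5] at hxy
        exact hxy rfl
      rw [h3]
      exact exists_eigenvector (T z.2) μ U hst k x hx1 h4 hk'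
    · intro h3
      exact absurd rfl h3
    · intro a b ha hb hab
      by_cases h3 : a y = 0
      · refine hb fun h4 => hab ?_
        rw [Pi.add_apply, h3, h4, add_zero]
      · exact ha h3
  obtain ⟨w, hw, hw0, hw1⟩ := key u h2 hy
  have h3 := hU.integral z hz w hw hw0 (eig z.2 y) hw1
  rw [← hU.degree u hu y hy] at h3
  exact h3

/-- the Galois coniveau is spanned by the good words -/
theorem galois_eq (hj : Jors wt Φ) (i ν : ℕ) :
    galoisConiveau Φ wt m i ν = good Φ wt m i ν := by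
  classical
  refine le_antisymm (sSup_le fun U hU => effective_le hj hU) ?_
  intro u hu
  have h1 : u = ∑ y, u y • (Pi.single y 1 : (Fin m → I) → ℂ) := by
    funext x
    rw [Finset.sum_apply, Finset.sum_eq_single x]
    · simp
    · intro y _ hy
      rw [Pi.smul_apply, Pi.single_eq_of_ne (Ne.symm hy), smul_zero]
    · intro h
      exact absurd (Finset.mem_univ x) h
  rw [h1]
  refine Submodule.sum_mem _ fun y _ => ?_
  by_cases h2 : u y = 0
  · rw [h2, zero_smul]
    exact Submodule.zero_mem _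
  · refine Submodule.smul_mem _ _ ?_
    obtain ⟨U, hU, hyU⟩ := single_effective hj (hu y h2).1 (hu y h2).2
    exact (le_sSup (show U ∈ {U | IsEffective Φ wt m i ν U} from hU)) hyU

end Pool.Agent.Helper75.BG
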