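import Pool.Agent.Helper75.BG.Slope
import Pool.Agent.Helper75.BG.GordE

/-!
# Bounded generation of the Galois coniveau of all powers
-/

set_option autoImplicit false

namespace Pool.Agent.Helper75.BG

open Pool.Agent.Helper71.Slopes

/-- the number of letters `j` in the word `y` (numbered by `f`) -/
def cnt {I : Type} {d m : ℕ} (f : I → Fin d) (y : Fin m → I) (j : Fin d) : ℕ :=
  (Finset.univ.filter fun p => f (y p) = j).card

theorem cnt_sum {I : Type} {d m : ℕ} (f : I → Fin d) (y : Fin m → I) (v : Fin d → ℕ) :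
    ∑ j, cnt f y j * v j = ∑ p, v (f (y p)) := by
  unfold cnt
  have h : ∀ j, (Finset.univ.filter fun p => f (y p) = j).card * v j =
      ∑ p ∈ Finset.univ.filter (fun p => f (y p) = j), v (f (y p)) := by
    intro j
    rw [Finset.sum_congr rfl (fun p hp => by rw [(Finset.mem_filter.1 hp).2]), Finset.sum_const,
      smul_eq_mul]
  rw [Finset.sum_congr rfl fun j _ => h j]
  exact Finset.sum_fiberwise Finset.univ (fun p => f (y p)) (fun p => v (f (y p)))

theorem cnt_total {I : Type} {d m : ℕ} (f : I → Fin d) (y : Fin m → I) :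
    ∑ j, cnt f y j = m := by
  have h := cnt_sum f y (fun _ => 1)
  simpa using h

/-- splitting a word -/
theorem exists_split {I : Type} {d m : ℕ} (f : I → Fin d) (y : Fin m → I) (k k' : Fin d → ℕ)
    (h : ∀ j, cnt f y j = k j + k' j) : ∃ (m₁ m₂ : ℕ) (e : Fin m₁ ⊕ Fin m₂ ≃ Fin m),
      (∀ j, cnt f (fun p => y (e (Sum.inl p))) j = k j) ∧
      (∀ j, cnt f (fun p => y (e (Sum.inr p))) j = k' j) := by
  classical
  have hS : ∀ j, ∃ S ⊆ Finset.univ.filter (fun p => f (y p) = j), S.card = k j := by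
    intro j
    apply Finset.exists_subset_card_eq
    have := h j
    unfold cnt at this
    omega
  choose S hS1 hS2 using hS
  let e : Fin (Fintype.card {p // p ∈ S (f (y p))}) ⊕ Fin (Fintype.card {p // ¬ p ∈ S (f (y p))}) ≃
      Fin m :=
    (Equiv.sumCongr (Fintype.equivFin _).symm (Fintype.equivFin _).symm).trans
      (Equiv.sumCompl fun p => p ∈ S (f (y p)))
  have hel : ∀ p, e (Sum.inl p) ∈ S (f (y (e (Sum.inl p)))) := fun p =>
    ((Fintype.equivFin {p // p ∈ S (f (y p))}).symm p).2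
  have her : ∀ p, e (Sum.inr p) ∉ S (f (y (e (Sum.inr p)))) := fun p =>
    ((Fintype.equivFin {p // ¬ p ∈ S (f (y p))}).symm p).2
  have h1 : ∀ j, cnt f (fun p => y (e (Sum.inl p))) j = k j := by
    intro j
    rw [← hS2 j]
    unfold cnt
    refine Finset.card_bij (fun p _ => e (Sum.inl p)) ?_ ?_ ?_
    · intro p hp
      have h2 : f (y (e (Sum.inl p))) = j := (Finset.mem_filter.1 hp).2
      have h3 := hel p
      rwa [h2] at h3
    · intro p _ p' _ hpp
      exact Sum.inl_injective (e.injective hpp)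
    · intro b hb
      have h2 : f (y b) = j := (Finset.mem_filter.1 (hS1 j hb)).2
      rcases hb' : e.symm b with p | p
      · have h3 : e (Sum.inl p) = b := by
          rw [← hb', Equiv.apply_symm_apply]
        exact ⟨p, Finset.mem_filter.2 ⟨Finset.mem_univ _, by
          show f (y (e (Sum.inl p))) = j
          rw [h3]
          exact h2⟩, h3⟩
      · have h3 : e (Sum.inr p) = b := by
          rw [← hb', Equiv.apply_symm_apply]
        have h4 := her p
        rw [h3, h2] at h4
        exact absurd hb h4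
  refine ⟨_, _, e, h1, fun j => ?_⟩
  have h2 : cnt f y j = cnt f (fun p => y (e (Sum.inl p))) j +
      cnt f (fun p => y (e (Sum.inr p))) j := by
    have h3 : ∀ n (z : Fin n → I), cnt f z j = ∑ p, if f (z p) = j then 1 else 0 := by
      intro n z
      unfold cnt
      rw [Finset.card_filter]
    rw [h3, h3, h3, ← e.sum_comp, Fintype.sum_sum_type]
  have h4 := h j
  have h5 := h1 j
  omega

variable {I : Type} [Fintype I]

omit [Fintype I] in
theorem koszul_ne_zero (wt : I → ℕ) {m m' n : ℕ} (e : Fin m ⊕ Fin m' ≃ Fin n) (y : Fin n → I) :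
    koszul wt e y ≠ 0 := by
  unfold koszul
  refine Finset.prod_ne_zero_iff.2 fun s _ => Finset.prod_ne_zero_iff.2 fun t _ => ?_
  split_ifs
  · exact pow_ne_zero _ (neg_ne_zero.2 one_ne_zero)
  · exact one_ne_zero

omit [Fintype I] in
/-- products of words -/
theorem product_single {m m' n : ℕ} [DecidableEq I] (wt : I → ℕ) (e : Fin m ⊕ Fin m' ≃ Fin n)
    (y : Fin n → I) : product wt e (Pi.single (fun p => y (e (Sum.inl p))) 1)
      (Pi.single (fun p => y (e (Sum.inr p))) 1) =
      koszul wt e y • (Pi.single y 1 : (Fin n → I) → ℂ) := by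
  funext x
  rw [Pi.smul_apply, smul_eq_mul]
  unfold product
  by_cases h : x = y
  · subst h
    simp
  · rw [Pi.single_eq_of_ne h]
    by_cases h1 : (fun p => x (e (Sum.inl p))) = (fun p => y (e (Sum.inl p)))
    · have h2 : (fun p => x (e (Sum.inr p))) ≠ (fun p => y (e (Sum.inr p))) := by
        intro h2
        apply h
        funext p
        rcases hp : e.symm p with a | a
        · have h3 : e (Sum.inl a) = p := by rw [← hp, Equiv.apply_symm_apply]
          rw [← h3]
          exact congrFun h1 a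
        · have h3 : e (Sum.inr a) = p := by rw [← hp, Equiv.apply_symm_apply]
          rw [← h3]
          exact congrFun h2 a
      rw [Pi.single_eq_of_ne h2, mul_zero, mul_zero, mul_zero]
    · rw [Pi.single_eq_of_ne h1, zero_mul, mul_zero, mul_zero]

theorem bound_eq (d N n : ℕ) : d * (N * (d * ((d - 1).factorial * (N * n) ^ (d - 1)))) =
    d * d.factorial * N ^ d * n ^ (d - 1) := by
  rcases Nat.eq_zero_or_pos d with h | h
  · subst h
    simp
  · obtain ⟨e, rfl⟩ : ∃ e, d = e + 1 := ⟨d - 1, by omega⟩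
    rw [Nat.add_sub_cancel, Nat.factorial_succ, mul_pow, pow_succ]
    ring

/-- **Bounded generation.** -/
theorem bounded_generation (d n N : ℕ) (hn : 1 ≤ n) (hN0 : 1 ≤ N) (I : Type) [Fintype I]
    [LinearOrder I] (Φ : Set (ℕ × Matrix I I ℂ)) (wt : I → ℕ) (hF : IsFrobenius d n N Φ wt)
    (G : (m i ν : ℕ) → Submodule ℂ ((Fin m → I) → ℂ))
    (hle : ∀ m i ν, G m i ν ≤ galoisConiveau Φ wt m i ν)
    (hmul : ∀ {m m' n i i' ν ν' : ℕ} (e : Fin m ⊕ Fin m' ≃ Fin n) (u : (Fin m → I) → ℂ)
      (v : (Fin m' → I) → ℂ), u ∈ G m i ν → v ∈ G m' i' ν' →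
      product wt e u v ∈ G n (i + i') (ν + ν'))
    (i₀ ν₀ : ℕ) (hB0 : ∀ m ≤ d * d.factorial * N ^ d * n ^ (d - 1), ∀ i ≤ i₀, ∀ ν ≤ ν₀,
      G m i ν = galoisConiveau Φ wt m i ν) (m i : ℕ) (hi₀ : i ≤ i₀) (ν : ℕ) (hν₀ : ν ≤ ν₀) :
    G m i ν = galoisConiveau Φ wt m i ν := by
  classical
  set B := d * d.factorial * N ^ d * n ^ (d - 1) with hBdef
  have hB := gordan_explicit d N (N * n) (N * n) hN0 (Nat.mul_pos hN0 hn) le_rfl
  rw [bound_eq, ← hBdef] at hB
  have hj : Jors wt Φ := hF.jordan
  have hq0 : ∀ z ∈ Φ, z.1 ≠ 0 := fun z hz => by have := hF.two_le z hz; omega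
  -- the slopes
  have hc : ∀ z ∈ Φ, ∀ P : Ideal (integralClosure ℤ ℂ), P.IsPrime →
      (z.1 : integralClosure ℤ ℂ) ∈ P →
      ∃ c : ℂ → ℕ, (∀ x, HasSlope z.1 N P (z.2 x x) (c (z.2 x x))) ∧ ∀ x, c (z.2 x x) ≤ N * n := by
    intro z hz P hP hqP
    let c : ℂ → ℕ := fun α => if h : ∃ c, HasSlope z.1 N P α c then h.choose else 0
    have h1 : ∀ x, HasSlope z.1 N P (z.2 x x) (c (z.2 x x)) := by
      intro x
      have h : ∃ c, HasSlope z.1 N P (z.2 x x) c := hF.slope z hz x P hP hqP
      show HasSlope z.1 N P (z.2 x x)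
        (if h : ∃ c, HasSlope z.1 N P (z.2 x x) c then h.choose else 0)
      rw [dif_pos h]
      exact h.choose_spec
    exact ⟨c, h1, fun x =>
      slope_le_dim (hq0 z hz) hqP (hF.integral z hz x) (hF.weight z hz x) (h1 x)⟩
  choose c hc1 hc2 using hc
  -- the letters
  let S : Set (Φ → ℂ) := Set.range fun (x : I) (z : Φ) => z.1.2 x x
  letI : Fintype S := Fintype.ofFinite S
  obtain ⟨f0⟩ : Nonempty (S ↪ Fin d) := by
    apply Function.Embedding.nonempty_of_card_le
    rw [Fintype.card_fin, ← Nat.card_eq_fintype_card, Nat.card_coe_set_eq]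
    exact hF.card_le
  let f : I → Fin d := fun x => f0 ⟨fun z => z.1.2 x x, x, rfl⟩
  let vec : ((Φ → ℂ) → ℕ) → Fin d → ℕ := fun g j => ∑ s : S, if f0 s = j then g s else 0
  have hvec : ∀ (g : (Φ → ℂ) → ℕ) x, vec g (f x) = g (fun z => z.1.2 x x) := by
    intro g x
    show ∑ s : S, (if f0 s = f0 ⟨fun z => z.1.2 x x, x, rfl⟩ then g s else 0) =
      g (fun z => z.1.2 x x)
    rw [Finset.sum_eq_single (⟨fun z => z.1.2 x x, x, rfl⟩ : S)]
    · rw [if_pos rfl]
    · intro s _ hs
      rw [if_neg (fun h => hs (f0.injective h))]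
    · intro h
      exact absurd (Finset.mem_univ _) h
  have hvec0 : ∀ (g : (Φ → ℂ) → ℕ) (M : ℕ), (∀ x, g (fun z => z.1.2 x x) ≤ M) →
      ∀ j, vec g j ≤ M := by
    intro g M hg j
    by_cases hx : ∃ x, f x = j
    · obtain ⟨x, rfl⟩ := hx
      rw [hvec]
      exact hg x
    · have : vec g j = 0 := by
        refine Finset.sum_eq_zero fun s _ => ?_
        obtain ⟨_, x, rfl⟩ := s
        rw [if_neg (fun h => hx ⟨x, h⟩)]
      rw [this]
      exact Nat.zero_le M
  let C : Finset (Fin d → ℕ) := (Fintype.piFinset fun _ => Finset.range (N * n + 1)).filter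
    fun v => ∃ (z : ℕ × Matrix I I ℂ) (hz : z ∈ Φ) (P : Ideal (integralClosure ℤ ℂ))
      (hP : P.IsPrime) (hqP : (z.1 : integralClosure ℤ ℂ) ∈ P),
      v = vec (fun a => c z hz P hP hqP (a ⟨z, hz⟩))
  have hCM : ∀ v ∈ C, ∀ j, v j ≤ N * n := by
    intro v hv j
    have h1 := Fintype.mem_piFinset.1 (Finset.mem_filter.1 hv).1 j
    rw [Finset.mem_range] at h1
    omega
  have hC : ∀ (z : ℕ × Matrix I I ℂ) (hz : z ∈ Φ) (P : Ideal (integralClosure ℤ ℂ))
      (hP : P.IsPrime) (hqP : (z.1 : integralClosure ℤ ℂ) ∈ P),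
      vec (fun a => c z hz P hP hqP (a ⟨z, hz⟩)) ∈ C := by
    intro z hz P hP hqP
    refine Finset.mem_filter.2 ⟨Fintype.mem_piFinset.2 fun j => ?_, z, hz, P, hP, hqP, rfl⟩
    rw [Finset.mem_range]
    have := hvec0 (fun a => c z hz P hP hqP (a ⟨z, hz⟩)) (N * n) (hc2 z hz P hP hqP) j
    omega
  have hslope : ∀ {n' : ℕ} (y : Fin n' → I) (z : ℕ × Matrix I I ℂ) (hz : z ∈ Φ)
      (P : Ideal (integralClosure ℤ ℂ)) (hP : P.IsPrime)
      (hqP : (z.1 : integralClosure ℤ ℂ) ∈ P),
      HasSlope z.1 N P (eig z.2 y)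
        (∑ j, cnt f y j * vec (fun a => c z hz P hP hqP (a ⟨z, hz⟩)) j) := by
    intro n y z hz P hP hqP
    rw [cnt_sum]
    have h1 := prod_slope (q := z.1) (N := N) hP Finset.univ (fun p => z.2 (y p) (y p))
      (fun p => vec (fun a => c z hz P hP hqP (a ⟨z, hz⟩)) (f (y p))) (fun p _ => by
        have h2 := hvec (fun a => c z hz P hP hqP (a ⟨z, hz⟩)) (y p)
        exact (congrArg (HasSlope z.1 N P (z.2 (y p) (y p))) h2).mpr (hc1 z hz P hP hqP (y p)))
    exact h1
  -- good words with a decomposition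
  have claim : ∀ L : List ((Fin d → ℕ) × ℕ), (∀ z ∈ L, ∑ j, z.1 j ≤ B ∧
      ∀ v ∈ C, N * z.2 ≤ ∑ j, z.1 j * v j) → ∀ (n' : ℕ) (y : Fin n' → I),
      (∀ j, cnt f y j = (L.map Prod.fst).sum j) → ∑ p, wt (y p) ≤ i₀ →
      (L.map Prod.snd).sum ≤ ν₀ →
      (Pi.single y 1 : (Fin n' → I) → ℂ) ∈ G n' (∑ p, wt (y p)) (L.map Prod.snd).sum := by
    intro L
    induction L with
    | nil =>
        intro _ n' y hy hyi hyν
        have hn' : n' = 0 := by
          rw [← cnt_total f y]
          refine Finset.sum_eq_zero fun j _ => ?_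
          rw [hy j]
          rfl
        subst hn'
        rw [hB0 0 (Nat.zero_le B) _ hyi _ hyν, galois_eq hj]
        intro w hw
        have hwy : w = y := Subsingleton.elim _ _
        refine ⟨fun z _ => ?_, by rw [hwy]⟩
        unfold Good eig
        simp only [Finset.univ_eq_empty, Finset.prod_empty, Finset.sum_empty, List.map_nil,
          List.sum_nil, pow_zero, div_one, Nat.sub_zero]
        exact ⟨isIntegral_one, isIntegral_one⟩
    | cons z L ih =>
        intro hL n' y hy hyi hyν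
        obtain ⟨m₁, m₂, e, h1, h2⟩ := exists_split f y z.1 (L.map Prod.fst).sum (by
          intro j
          rw [hy j, List.map_cons, List.sum_cons]
          rfl)
        have h6 : ∑ p, wt (y p) = ∑ p, wt (y (e (Sum.inl p))) + ∑ p, wt (y (e (Sum.inr p))) := by
          rw [← e.sum_comp, Fintype.sum_sum_type]
        have h7 : ((z :: L).map Prod.snd).sum = z.2 + (L.map Prod.snd).sum := by
          rw [List.map_cons, List.sum_cons]
        have hz := hL z (List.mem_cons_self)
        have h3 : (Pi.single (fun p => y (e (Sum.inl p))) 1 : (Fin m₁ → I) → ℂ) ∈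
            G m₁ (∑ p, wt (y (e (Sum.inl p)))) z.2 := by
          have hm₁ : m₁ ≤ B := by
            rw [← cnt_total f (fun p => y (e (Sum.inl p))), Finset.sum_congr rfl fun j _ => h1 j]
            exact hz.1
          rw [hB0 m₁ hm₁ _ (by omega) _ (by omega), galois_eq hj]
          intro x hx
          by_cases hxy : x = fun p => y (e (Sum.inl p))
          · subst hxy
            refine ⟨fun z' hz' => good_of_slopes (hF.two_le z' hz') hN0
              (fun x => hF.weights hz' x) _ ?_, rfl⟩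
            intro P hP hqP
            refine ⟨_, hslope _ z' hz' P hP hqP, ?_⟩
            have h4 := hz.2 _ (hC z' hz' P hP hqP)
            rw [Finset.sum_congr rfl fun j _ => by rw [h1 j]]
            exact h4
          · exact absurd (Pi.single_eq_of_ne hxy _) hx
        have h4 := ih (fun z' hz' => hL z' (List.mem_cons_of_mem _ hz')) m₂
          (fun p => y (e (Sum.inr p))) h2 (by omega) (by omega)
        have h5 := hmul e _ _ h3 h4
        rw [product_single] at h5
        rw [h6, List.map_cons, List.sum_cons]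
        have h8 := Submodule.smul_mem _ (koszul wt e y)⁻¹ h5
        rw [smul_smul, inv_mul_cancel₀ (koszul_ne_zero wt e y), one_smul] at h8
        exact h8
  refine le_antisymm (hle m i ν) ?_
  rw [galois_eq hj]
  intro u hu
  have h1 : u = ∑ y, u y • (Pi.single y 1 : (Fin m → I) → ℂ) := by
    funext x
    rw [Finset.sum_apply, Finset.sum_eq_single x]
    · simp
    · intro y _ hy
      rw [Pi.smul_apply, Pi.single_eq_of_ne (Ne.symm hy), smul_zero]
    · intro h
      exact absurd (Finset.mem_univ x) h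
  rw [h1]
  refine Submodule.sum_mem _ fun y _ => ?_
  by_cases h2 : u y = 0
  · rw [h2, zero_smul]
    exact Submodule.zero_mem _
  · refine Submodule.smul_mem _ _ ?_
    obtain ⟨hg, hi⟩ := hu y h2
    obtain ⟨z0, hz0⟩ := hF.nonempty
    obtain ⟨P0, hP0, hqP0⟩ := exists_prime (hF.two_le z0 hz0)
    obtain ⟨L, hL1, hL2, hL3⟩ := hB C ⟨_, hC z0 hz0 P0 hP0 hqP0⟩ hCM (cnt f y) ν (by
      intro v hv
      obtain ⟨z, hz, P, hP, hqP, rfl⟩ := (Finset.mem_filter.1 hv).2
      exact slope_of_integral (hq0 z hz) hqP (hslope y z hz P hP hqP) (hg z hz).1)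
    have h3 := claim L hL1 m y (fun j => by rw [hL2]) (by rw [hi]; exact hi₀) (by rw [hL3]; exact hν₀)
    rw [hi, hL3] at h3
    exact h3

end Pool.Agent.Helper75.BG
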