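import Mathlib

/-!
# Noetherianity of the tensor powers (Higman's lemma)
-/

set_option autoImplicit false

namespace Pool.Agent.Helper75.BG

/-- `u` has the leading word `y` -/
def IsLead {I : Type} [LinearOrder I] {m : ℕ} (u : (Fin m → I) → ℂ) (y : Fin m → I) : Prop :=
  u y ≠ 0 ∧ ∀ x, u x ≠ 0 → toLex x ≤ toLex y

theorem exists_lead {I : Type} [Fintype I] [LinearOrder I] {m : ℕ} {u : (Fin m → I) → ℂ}
    (hu : u ≠ 0) : ∃ y, IsLead u y := by
  classical
  obtain ⟨y0, hy0⟩ : ∃ y, u y ≠ 0 := by
    by_contra hcon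
    push Not at hcon
    exact hu (funext hcon)
  obtain ⟨y, hy1, hy2⟩ := (Finset.univ.filter fun y => u y ≠ 0).exists_max_image
    (fun y => toLex y) ⟨y0, Finset.mem_filter.2 ⟨Finset.mem_univ _, hy0⟩⟩
  exact ⟨y, (Finset.mem_filter.1 hy1).2, fun x hx =>
    hy2 x (Finset.mem_filter.2 ⟨Finset.mem_univ _, hx⟩)⟩

/-- Higman's lemma for finite alphabets -/
theorem higman {I : Type} [Finite I] (f : ℕ → List I) : ∃ a b, a < b ∧ (f a).Sublist (f b) := by
  have h1 : (Set.univ : Set I).PartiallyWellOrderedOn (fun a b => a = b) :=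
    Set.finite_univ.partiallyWellOrderedOn
  have h2 := Set.PartiallyWellOrderedOn.partiallyWellOrderedOn_sublistForall₂ (fun a b => a = b) h1
  obtain ⟨a, b, hab, h3⟩ := h2.exists_lt (f := f) (fun n x _ => Set.mem_univ x)
  obtain ⟨l, h4, h5⟩ := List.sublistForall₂_iff.1 h3
  refine ⟨a, b, hab, ?_⟩
  have h6 : f a = l := by
    have := h4
    rw [List.forall₂_eq_eq_eq] at this
    exact this
  rw [h6]
  exact h5

/-- a set of words has boundedly long minimal elements -/
theorem exists_bound {I : Type} [Finite I] (L : Set (List I)) : ∃ B : ℕ, ∀ l ∈ L, ∃ l' ∈ L,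
    l'.Sublist l ∧ l'.length ≤ B := by
  by_contra hcon
  push Not at hcon
  choose g hg1 hg2 using hcon
  let f : ℕ → List I := fun n => Nat.rec (g 0) (fun _ l => g l.length) n
  have hf0 : f 0 = g 0 := rfl
  have hfs : ∀ n, f (n + 1) = g (f n).length := fun n => rfl
  have hfL : ∀ n, f n ∈ L := by
    intro n
    cases n with
    | zero => exact hg1 0
    | succ n => exact hg1 _
  have hlt : ∀ n, (f n).length < (f (n + 1)).length := by
    intro n
    rw [hfs]
    exact hg2 (f n).length _ (hg1 _) (List.Sublist.refl _)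
  have hmono : StrictMono fun n => (f n).length := strictMono_nat_of_lt_succ hlt
  obtain ⟨a, b, hab, h⟩ := higman f
  obtain ⟨c, rfl⟩ : ∃ c, b = c + 1 := ⟨b - 1, by omega⟩
  have h1 := hg2 (f c).length (f a) (hfL a) (by rw [← hfs]; exact h)
  have h2 : (f a).length ≤ (f c).length := hmono.monotone (by omega)
  omega

/-- an order embedding, completed to a bijection -/
theorem exists_equiv {m n : ℕ} (f : Fin m ↪o Fin n) : ∃ (m' : ℕ) (e : Fin m ⊕ Fin m' ≃ Fin n),
    ∀ p, e (Sum.inl p) = f p := by
  classical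
  let e1 : Fin m ≃ {x : Fin n // x ∈ Set.range f} := Equiv.ofInjective f f.injective
  let e : Fin m ⊕ Fin (Fintype.card {x : Fin n // ¬ x ∈ Set.range f}) ≃ Fin n :=
    (Equiv.sumCongr e1 (Fintype.equivFin _).symm).trans (Equiv.sumCompl fun x => x ∈ Set.range f)
  exact ⟨_, e, fun p => rfl⟩

/-- the product with a word, with signs -/
def ins {I : Type} [DecidableEq I] (sg : {m m' n : ℕ} → (Fin m ⊕ Fin m' ≃ Fin n) → (Fin n → I) → ℂ)
    {m m' n : ℕ} (e : Fin m ⊕ Fin m' ≃ Fin n) (u : (Fin m → I) → ℂ) (z : Fin m' → I) :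
    (Fin n → I) → ℂ := fun y => sg e y * (u (fun p => y (e (Sum.inl p))) *
      (if (fun p => y (e (Sum.inr p))) = z then 1 else 0))

theorem lead_ins {I : Type} [LinearOrder I]
    (sg : {m m' n : ℕ} → (Fin m ⊕ Fin m' ≃ Fin n) → (Fin n → I) → ℂ)
    (hsg : ∀ {m m' n : ℕ} (e : Fin m ⊕ Fin m' ≃ Fin n) (y : Fin n → I), sg e y ≠ 0)
    {m m' n : ℕ} (f : Fin m ↪o Fin n) (e : Fin m ⊕ Fin m' ≃ Fin n) (he : ∀ p, e (Sum.inl p) = f p)
    {u : (Fin m → I) → ℂ} (y : Fin n → I) (hu : IsLead u (fun p => y (e (Sum.inl p)))) :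
    IsLead (ins sg e u (fun p => y (e (Sum.inr p)))) y := by
  constructor
  · unfold ins
    rw [if_pos rfl, mul_one]
    exact mul_ne_zero (hsg e y) hu.1
  · intro x hx
    have h1 := right_ne_zero_of_mul hx
    have h2 : u (fun p => x (e (Sum.inl p))) ≠ 0 := left_ne_zero_of_mul h1
    have h3 : (fun p => x (e (Sum.inr p))) = fun p => y (e (Sum.inr p)) := by
      by_contra h4
      rw [if_neg h4, mul_zero] at h1
      exact h1 rfl
    rcases (hu.2 _ h2).eq_or_lt with h4 | h4
    · have h5 : (fun p => x (e (Sum.inl p))) = fun p => y (e (Sum.inl p)) := toLex.injective h4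
      have h6 : x = y := by
        funext p
        obtain ⟨s, rfl⟩ := e.surjective p
        rcases s with a | a
        · exact congrFun h5 a
        · exact congrFun h3 a
      rw [h6]
    · obtain ⟨a, ha1, ha2⟩ := h4
      refine le_of_lt ⟨f a, fun j hj => ?_, ?_⟩
      · obtain ⟨s, rfl⟩ := e.surjective j
        rcases s with b | b
        · rw [he] at hj
          exact ha1 b (f.lt_iff_lt.1 hj)
        · exact congrFun h3 b
      · have := ha2
        rw [← he]
        exact this

/-- **Noetherianity.** -/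
theorem noeth {I : Type} [Fintype I] [LinearOrder I] (wt : I → ℕ)
    (sg : {m m' n : ℕ} → (Fin m ⊕ Fin m' ≃ Fin n) → (Fin n → I) → ℂ)
    (hsg : ∀ {m m' n : ℕ} (e : Fin m ⊕ Fin m' ≃ Fin n) (y : Fin n → I), sg e y ≠ 0)
    (N : (m i : ℕ) → Submodule ℂ ((Fin m → I) → ℂ))
    (hdeg : ∀ m i, ∀ u ∈ N m i, ∀ y, u y ≠ 0 → ∑ p, wt (y p) = i)
    (hN : ∀ {m m' n i : ℕ} (e : Fin m ⊕ Fin m' ≃ Fin n), ∀ u ∈ N m i, ∀ z : Fin m' → I,
      ins sg e u z ∈ N n (i + ∑ p, wt (z p))) :
    ∃ B : ℕ, ∀ G : (m i : ℕ) → Submodule ℂ ((Fin m → I) → ℂ), (∀ m i, G m i ≤ N m i) →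
      (∀ {m m' n i : ℕ} (e : Fin m ⊕ Fin m' ≃ Fin n), ∀ u ∈ G m i, ∀ z : Fin m' → I,
        ins sg e u z ∈ G n (i + ∑ p, wt (z p))) →
      (∀ m ≤ B, ∀ i, G m i = N m i) → ∀ m i, G m i = N m i := by
  classical
  let L : Set (List I) := {l | ∃ (u : (Fin l.length → I) → ℂ) (i : ℕ), u ∈ N l.length i ∧
    IsLead u l.get}
  obtain ⟨B, hB⟩ := exists_bound L
  refine ⟨B, fun G hG hcl hBG m i => le_antisymm (hG m i) ?_⟩
  -- induction on the leading word
  suffices h : ∀ (y : Lex (Fin m → I)), ∀ u ∈ N m i, (∀ x, u x ≠ 0 → toLex x ≤ y) → u ∈ G m i by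
    intro u hu
    by_cases h0 : u = 0
    · rw [h0]
      exact Submodule.zero_mem _
    · obtain ⟨y, hy⟩ := exists_lead h0
      exact h (toLex y) u hu hy.2
  intro y
  induction y using WellFoundedLT.induction with
  | ind y ih =>
    -- elements with smaller leading words
    have hsmall : ∀ u ∈ N m i, (∀ x, u x ≠ 0 → toLex x < y) → u ∈ G m i := by
      intro u hu hux
      by_cases h0 : u = 0
      · rw [h0]
        exact Submodule.zero_mem _
      · obtain ⟨y', hy'⟩ := exists_lead h0
        exact ih (toLex y') (hux y' hy'.1) u hu hy'.2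
    intro u hu hux
    by_cases h0 : u (ofLex y) = 0
    · refine hsmall u hu fun x hx => lt_of_le_of_ne (hux x hx) fun h1 => hx ?_
      rw [← h1, ofLex_toLex] at h0
      exact h0
    · set w : Fin m → I := ofLex y with hw
      have hdegw := hdeg m i u hu w h0
      have hmem : List.ofFn w ∈ L := by
        have hlen : (List.ofFn w).length = m := List.length_ofFn
        refine ⟨fun x => u (fun p => x (Fin.cast hlen.symm p)), i, ?_, ?_⟩
        · have h1 : ∀ (m' : ℕ) (h : m' = m),
              (fun x : Fin m' → I => u (fun p => x (Fin.cast h.symm p))) ∈ N m' i := by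
            intro m' h
            subst h
            exact hu
          exact h1 _ hlen
        · have h1 : ∀ (m' : ℕ) (h : m' = m) (w' : Fin m' → I) (hw' : w' = fun p => w (Fin.cast h p)),
              IsLead (fun x : Fin m' → I => u (fun p => x (Fin.cast h.symm p))) w' := by
            intro m' h w' hw'
            subst h
            subst hw'
            exact ⟨h0, hux⟩
          refine h1 _ hlen _ ?_
          funext p
          simp
          rfl
      obtain ⟨l', ⟨u', i', hu', hlead'⟩, hsub, hlen'⟩ := hB _ hmem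
      obtain ⟨f', hf'⟩ := List.sublist_iff_exists_fin_orderEmbedding_get_eq.1 hsub
      have hlen : (List.ofFn w).length = m := List.length_ofFn
      let f : Fin l'.length ↪o Fin m := f'.trans (Fin.castOrderIso hlen).toOrderEmbedding
      have hf : ∀ p, l'.get p = w (f p) := by
        intro p
        rw [hf' p]
        simp [f]
        rfl
      obtain ⟨m', e, he⟩ := exists_equiv f
      have hlead : IsLead u' (fun p => w (e (Sum.inl p))) := by
        have h1 : (fun p => w (e (Sum.inl p))) = l'.get := by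
          funext p
          rw [he, hf]
        rw [h1]
        exact hlead'
      have hprod := lead_ins sg hsg f e he w hlead
      set v := ins sg e u' (fun p => w (e (Sum.inr p))) with hv
      have hi' : ∑ p, wt (w (e (Sum.inl p))) = i' := hdeg _ _ u' hu' _ hlead.1
      have hi : i' + ∑ p, wt (w (e (Sum.inr p))) = i := by
        rw [← hi', ← hdegw, ← e.sum_comp (fun p => wt (w p)), Fintype.sum_sum_type]
      have hvN : v ∈ N m i := by
        rw [← hi]
        exact hN e u' hu' _
      have hvG : v ∈ G m i := by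
        rw [← hi]
        refine hcl e u' ?_ _
        rw [hBG _ hlen' i']
        exact hu'
      have h5 : u - (u w / v w) • v ∈ G m i := by
        refine hsmall _ (Submodule.sub_mem _ hu (Submodule.smul_mem _ _ hvN)) fun x hx => ?_
        have h6 : toLex x ≤ y := by
          by_contra h7
          apply hx
          have h8 : u x = 0 := by
            by_contra h9
            exact h7 (hux x h9)
          have h9 : v x = 0 := by
            by_contra h10
            exact h7 (hprod.2 x h10)
          rw [Pi.sub_apply, Pi.smul_apply, h8, h9, smul_zero, sub_zero]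
        refine lt_of_le_of_ne h6 fun h7 => hx ?_
        have h8 : x = w := by
          rw [hw, ← h7, ofLex_toLex]
        rw [h8, Pi.sub_apply, Pi.smul_apply, smul_eq_mul, div_mul_cancel₀ _ hprod.1, sub_self]
      have h6 : u = (u - (u w / v w) • v) + (u w / v w) • v := by
        rw [sub_add_cancel]
      rw [h6]
      exact Submodule.add_mem _ h5 (Submodule.smul_mem _ _ hvG)

end Pool.Agent.Helper75.BG
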