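import Mathlib

/-!
# Small integer vectors in polyhedral cones
-/

set_option autoImplicit false

namespace Pool.Agent.Helper75.BG

/-- the value of an integer functional -/
def ev {d : ℕ} (t : Fin d → ℤ) (x : Fin d → ℚ) : ℚ := ∑ j, (t j : ℚ) * x j

theorem ev_add {d : ℕ} (t : Fin d → ℤ) (x y : Fin d → ℚ) : ev t (x + y) = ev t x + ev t y := by
  simp only [ev, Pi.add_apply, mul_add, Finset.sum_add_distrib]

theorem ev_smul {d : ℕ} (t : Fin d → ℤ) (c : ℚ) (x : Fin d → ℚ) : ev t (c • x) = c * ev t x := by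
  simp only [ev, Pi.smul_apply, smul_eq_mul, Finset.mul_sum]
  exact Finset.sum_congr rfl fun j _ => by ring

theorem ev_neg {d : ℕ} (t : Fin d → ℤ) (x : Fin d → ℚ) : ev t (-x) = - ev t x := by
  simp only [ev, Pi.neg_apply, mul_neg, Finset.sum_neg_distrib]

theorem ev_single {d : ℕ} (j : Fin d) (x : Fin d → ℚ) : ev (Pi.single j 1) x = x j := by
  unfold ev
  rw [Finset.sum_eq_single j]
  · simp
  · intro i _ hi
    rw [Pi.single_eq_of_ne hi]
    simp
  · intro h
    exact absurd (Finset.mem_univ j) h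

/-- moving to the boundary -/
theorem ratio {d : ℕ} (T : Finset (Fin d → ℤ)) (x y : Fin d → ℚ) (hx : ∀ t ∈ T, 0 ≤ ev t x)
    (hy : ∃ t ∈ T, ev t y < 0) : ∃ c : ℚ, 0 ≤ c ∧ (∀ t ∈ T, 0 ≤ ev t (x + c • y)) ∧
      ∃ t ∈ T, ev t y < 0 ∧ ev t (x + c • y) = 0 := by
  classical
  obtain ⟨t1, ht1, ht1y⟩ := hy
  obtain ⟨t0, ht0, hmin⟩ := (T.filter fun t => ev t y < 0).exists_min_image
    (fun t => ev t x / (- ev t y)) ⟨t1, Finset.mem_filter.2 ⟨ht1, ht1y⟩⟩
  obtain ⟨ht0T, ht0y⟩ := Finset.mem_filter.1 ht0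
  have h0 : 0 < - ev t0 y := by linarith
  refine ⟨ev t0 x / (- ev t0 y), div_nonneg (hx t0 ht0T) h0.le, fun t ht => ?_, t0, ht0T, ht0y, ?_⟩
  · rw [ev_add, ev_smul]
    have hc : 0 ≤ ev t0 x / (- ev t0 y) := div_nonneg (hx t0 ht0T) h0.le
    by_cases h1 : ev t y < 0
    · have h2 := hmin t (Finset.mem_filter.2 ⟨ht, h1⟩)
      have h3 : 0 < - ev t y := by linarith
      have h4 := (le_div_iff₀ h3).1 h2
      linarith
    · push Not at h1
      have := hx t ht
      have := mul_nonneg hc h1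
      linarith
  · rw [ev_add, ev_smul]
    have h1 : ev t0 y ≠ 0 := ht0y.ne
    field_simp
    ring

theorem indep_cons {d s : ℕ} (v : Fin s → Fin d → ℤ)
    (hl : LinearIndependent ℚ (fun i => (fun j => (v i j : ℚ)))) (t : Fin d → ℤ) (y : Fin d → ℚ)
    (hy : ∀ i, ev (v i) y = 0) (ht : ev t y ≠ 0) :
    LinearIndependent ℚ (fun i : Fin (s + 1) =>
      (fun j => ((Fin.cons t v : Fin (s + 1) → Fin d → ℤ) i j : ℚ))) := by
  have h1 : (fun i : Fin (s + 1) => (fun j => ((Fin.cons t v : Fin (s + 1) → Fin d → ℤ) i j : ℚ))) =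
      (Fin.cons (fun j => (t j : ℚ)) (fun i => (fun j => (v i j : ℚ))) :
        Fin (s + 1) → Fin d → ℚ) := by
    funext i
    refine Fin.cases ?_ (fun i => ?_) i
    · rfl
    · rfl
  rw [h1, linearIndependent_finCons]
  refine ⟨hl, fun h2 => ht ?_⟩
  have h3 : ∀ w ∈ Submodule.span ℚ (Set.range fun i => (fun j => (v i j : ℚ))),
      ∑ j, w j * y j = 0 := by
    intro w hw
    refine Submodule.span_induction ?_ ?_ ?_ ?_ hw
    · rintro w ⟨i, rfl⟩
      exact hy i
    · simp
    · intro a b _ _ ha hb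
      simp only [Pi.add_apply, add_mul, Finset.sum_add_distrib, ha, hb, add_zero]
    · intro c a _ ha
      simp only [Pi.smul_apply, smul_eq_mul, mul_assoc]
      rw [← Finset.mul_sum, ha, mul_zero]
  exact h3 _ h2

theorem eq_zero_of_rows {d : ℕ} (v : Fin d → Fin d → ℤ)
    (hl : LinearIndependent ℚ (fun i => (fun j => (v i j : ℚ)))) (x : Fin d → ℚ)
    (hx : ∀ i, ev (v i) x = 0) : x = 0 := by
  let M : Matrix (Fin d) (Fin d) ℚ := fun i j => (v i j : ℚ)
  have h1 : IsUnit M := Matrix.linearIndependent_rows_iff_isUnit.1 hl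
  have h2 : Function.Injective M.mulVec := Matrix.mulVec_injective_iff_isUnit.2 h1
  apply h2
  rw [Matrix.mulVec_zero]
  funext i
  exact hx i

theorem cramer {s : ℕ} (A : ℕ) (hA : 1 ≤ A) (v : Fin s → Fin (s + 1) → ℤ)
    (hv : ∀ i j, |v i j| ≤ A)
    (hl : LinearIndependent ℚ (fun i => (fun j => (v i j : ℚ)))) (x : Fin (s + 1) → ℚ)
    (hx0 : x ≠ 0) (hx : ∀ i, ev (v i) x = 0) : ∃ (r : Fin (s + 1) → ℤ) (μ : ℚ), 0 < μ ∧
      (∀ j, (r j : ℚ) = μ * x j) ∧ ∀ j, |r j| ≤ s.factorial * (A : ℤ) ^ s := by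
  classical
  obtain ⟨j0, hj0⟩ : ∃ j, x j ≠ 0 := by
    by_contra hcon
    push Not at hcon
    exact hx0 (funext hcon)
  have hA' : (1 : ℤ) ≤ A := by exact_mod_cast hA
  let M : Matrix (Fin (s + 1)) (Fin (s + 1)) ℤ := Fin.cons (Pi.single j0 1) v
  have hM0 : M 0 = Pi.single j0 1 := rfl
  have hMs : ∀ i, M (Fin.succ i) = v i := fun i => rfl
  have hMb : ∀ i j, |M i j| ≤ A := by
    intro i j
    refine Fin.cases ?_ (fun i => ?_) i
    · rw [hM0]
      by_cases h : j = j0
      · subst h
        simpa using hA'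
      · rw [Pi.single_eq_of_ne h]
        simp
    · rw [hMs]
      exact hv i j
  have hlM : LinearIndependent ℚ (fun i => (fun j => (M i j : ℚ))) := by
    have := indep_cons v hl (Pi.single j0 1) x hx (by rw [ev_single]; exact hj0)
    exact this
  have hdet : M.det ≠ 0 := by
    intro h0
    let MQ : Matrix (Fin (s + 1)) (Fin (s + 1)) ℚ := M.map (Int.castRingHom ℚ)
    have h1 : IsUnit MQ := Matrix.linearIndependent_rows_iff_isUnit.1 hlM
    have h2 : MQ.det = 0 := by
      have := (Int.castRingHom ℚ).map_det M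
      rw [h0, map_zero] at this
      exact this.symm
    rw [Matrix.isUnit_iff_isUnit_det, h2] at h1
    exact not_isUnit_zero h1
  have hmul : ∀ i, ∑ l, M i l * M.adjugate l 0 = M.det * (if i = 0 then 1 else 0) := by
    intro i
    have h1 := congrFun (congrFun (Matrix.mul_adjugate M) i) 0
    rw [Matrix.mul_apply] at h1
    rw [h1, Matrix.smul_apply, Matrix.one_apply, smul_eq_mul]
  have hkey : (fun l => (M.adjugate l 0 : ℚ)) = ((M.det : ℚ) / x j0) • x := by
    have h1 : (fun l => (M.adjugate l 0 : ℚ)) + (-((M.det : ℚ) / x j0)) • x = 0 := by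
      refine eq_zero_of_rows M hlM _ fun i => ?_
      rw [ev_add, ev_smul]
      have h2 : ev (M i) (fun l => (M.adjugate l 0 : ℚ)) = (M.det : ℚ) * (if i = 0 then 1 else 0) := by
        unfold ev
        have h3 := congrArg (fun z : ℤ => (z : ℚ)) (hmul i)
        simp only [Int.cast_sum, Int.cast_mul] at h3
        rw [h3]
        split_ifs <;> simp
      rw [h2]
      by_cases hi : i = 0
      · subst hi
        rw [hM0, ev_single, if_pos rfl]
        field_simp
        ring
      · obtain ⟨i', rfl⟩ := Fin.exists_succ_eq.2 hi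
        rw [hMs, hx i', if_neg hi]
        ring
    rw [neg_smul] at h1
    exact eq_of_sub_eq_zero (by rw [sub_eq_add_neg]; exact h1)
  have hbound : ∀ l, |M.adjugate l 0| ≤ s.factorial * (A : ℤ) ^ s := by
    intro l
    rw [Matrix.adjugate_fin_succ_eq_det_submatrix, abs_mul, abs_pow, abs_neg, abs_one, one_pow,
      one_mul]
    have h1 := Matrix.det_le (A := M.submatrix (Fin.succAbove 0) (Fin.succAbove l))
      (abv := AbsoluteValue.abs) (x := (A : ℤ)) (fun i j => hMb _ _)
    rw [Fintype.card_fin, nsmul_eq_mul] at h1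
    exact h1
  have hμ : ((M.det : ℚ) / x j0) ≠ 0 := div_ne_zero (by exact_mod_cast hdet) hj0
  rcases lt_or_gt_of_ne hμ with hneg | hpos
  · refine ⟨fun l => - M.adjugate l 0, -((M.det : ℚ) / x j0), by linarith, fun j => ?_, fun j => ?_⟩
    · have h1 := congrFun hkey j
      rw [Pi.smul_apply, smul_eq_mul] at h1
      rw [Int.cast_neg, h1, neg_mul]
    · show |- M.adjugate j 0| ≤ _
      rw [abs_neg]
      exact hbound j
  · refine ⟨fun l => M.adjugate l 0, (M.det : ℚ) / x j0, hpos, fun j => ?_, hbound⟩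
    have h1 := congrFun hkey j
    rw [Pi.smul_apply, smul_eq_mul] at h1
    exact h1

/-- a small vector on a face -/
theorem ray {d : ℕ} (A : ℕ) (hA : 1 ≤ A) (T : Finset (Fin d → ℤ))
    (hT : ∀ t ∈ T, ∀ j, |t j| ≤ A) (hco : ∀ j, Pi.single j 1 ∈ T) :
    ∀ (n s : ℕ), n + s + 1 = d → ∀ (v : Fin s → Fin d → ℤ),
    (∀ i, v i ∈ T) → LinearIndependent ℚ (fun i => (fun j => (v i j : ℚ))) →
    ∀ x : Fin d → ℚ, (∀ t ∈ T, 0 ≤ ev t x) → x ≠ 0 → (∀ i, ev (v i) x = 0) →
    ∃ r : Fin d → ℤ, (∀ t ∈ T, 0 ≤ ev t (fun j => (r j : ℚ))) ∧ r ≠ 0 ∧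
      (∀ j, |r j| ≤ (d - 1).factorial * (A : ℤ) ^ (d - 1)) ∧ ∀ i, ev (v i) (fun j => (r j : ℚ)) = 0 := by
  classical
  intro n
  induction n with
  | zero =>
      intro s hs v hvT hl x hx hx0 hxv
      have hs' : s + 1 = d := by omega
      subst hs'
      obtain ⟨r, μ, hμ, hr, hb⟩ := cramer A hA v (fun i j => hT _ (hvT i) j) hl x hx0 hxv
      have hr' : (fun j => (r j : ℚ)) = μ • x := by
        funext j
        rw [hr j, Pi.smul_apply, smul_eq_mul]
      refine ⟨r, fun t ht => ?_, ?_, hb, fun i => ?_⟩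
      · rw [hr', ev_smul]
        exact mul_nonneg hμ.le (hx t ht)
      · intro h0
        apply hx0
        funext j
        have h1 := hr j
        rw [h0] at h1
        simp only [Pi.zero_apply, Int.cast_zero] at h1
        rcases mul_eq_zero.1 h1.symm with h2 | h2
        · exact absurd h2 hμ.ne'
        · exact h2
      · rw [hr', ev_smul, hxv i, mul_zero]
  | succ n ih =>
      intro s hs v hvT hl x hx hx0 hxv
      obtain ⟨j0, hj0⟩ : ∃ j, x j ≠ 0 := by
        by_contra hcon
        push Not at hcon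
        exact hx0 (funext hcon)
      -- a direction
      let g : (Fin d → ℚ) →ₗ[ℚ] (Fin (s + 1) → ℚ) :=
        { toFun := fun y i => ev ((Fin.cons (Pi.single j0 1) v : Fin (s + 1) → Fin d → ℤ) i) y
          map_add' := fun y z => by funext i; exact ev_add _ _ _
          map_smul' := fun c y => by funext i; exact ev_smul _ _ _ }
      have hker : LinearMap.ker g ≠ ⊥ := by
        apply LinearMap.ker_ne_bot_of_finrank_lt
        rw [Module.finrank_fin_fun, Module.finrank_fin_fun]
        omega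
      obtain ⟨y, hy, hy0⟩ := (Submodule.ne_bot_iff _).1 hker
      have hy1 : y j0 = 0 := by
        have := congrFun (LinearMap.mem_ker.1 hy) 0
        have h2 : ev (Pi.single j0 1) y = 0 := this
        rwa [ev_single] at h2
      have hy2 : ∀ i, ev (v i) y = 0 := fun i => congrFun (LinearMap.mem_ker.1 hy) (Fin.succ i)
      -- sign
      have main : ∀ y : Fin d → ℚ, y j0 = 0 → (∀ i, ev (v i) y = 0) → (∃ l, y l < 0) →
          ∃ r : Fin d → ℤ, (∀ t ∈ T, 0 ≤ ev t (fun j => (r j : ℚ))) ∧ r ≠ 0 ∧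
          (∀ j, |r j| ≤ (d - 1).factorial * (A : ℤ) ^ (d - 1)) ∧
          ∀ i, ev (v i) (fun j => (r j : ℚ)) = 0 := by
        intro y hy1 hy2 ⟨l, hl0⟩
        obtain ⟨c, hc, hc1, t, ht, hty, htx⟩ := ratio T x y hx
          ⟨Pi.single l 1, hco l, by rw [ev_single]; exact hl0⟩
        have h1 := ih (s + 1) (by omega) (Fin.cons t v) (fun i => by
            refine Fin.cases ?_ (fun i => ?_) i
            · exact ht
            · exact hvT i) (indep_cons v hl t y hy2 hty.ne) (x + c • y) hc1 (by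
            intro h0
            apply hj0
            have := congrFun h0 j0
            rw [Pi.add_apply, Pi.smul_apply, hy1, smul_zero, add_zero] at this
            exact this) (fun i => by
            refine Fin.cases ?_ (fun i => ?_) i
            · exact htx
            · show ev (v i) (x + c • y) = 0
              rw [ev_add, ev_smul, hxv i, hy2 i, mul_zero, add_zero])
        obtain ⟨r, hr1, hr2, hr3, hr4⟩ := h1
        exact ⟨r, hr1, hr2, hr3, fun i => hr4 (Fin.succ i)⟩
      obtain ⟨l, hl0⟩ : ∃ j, y j ≠ 0 := by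
        by_contra hcon
        push Not at hcon
        exact hy0 (funext hcon)
      rcases lt_or_gt_of_ne hl0 with h | h
      · exact main y hy1 hy2 ⟨l, h⟩
      · refine main (-y) (by rw [Pi.neg_apply, hy1, neg_zero]) (fun i => by
          rw [ev_neg, hy2 i, neg_zero]) ⟨l, ?_⟩
        rw [Pi.neg_apply]
        linarith

/-- a large vector of the cone is a multiple `K r` of a small vector plus a vector of the cone -/
theorem split_real {d : ℕ} (A : ℕ) (hA : 1 ≤ A) (T : Finset (Fin d → ℤ))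
    (hT : ∀ t ∈ T, ∀ j, |t j| ≤ A) (hco : ∀ j, Pi.single j 1 ∈ T) (K : ℚ) (hK : 0 ≤ K) :
    ∀ (n s : ℕ), n + s = d → ∀ (v : Fin s → Fin d → ℤ),
    (∀ i, v i ∈ T) → LinearIndependent ℚ (fun i => (fun j => (v i j : ℚ))) →
    ∀ x : Fin d → ℚ, (∀ t ∈ T, 0 ≤ ev t x) → (∀ i, ev (v i) x = 0) →
    (n : ℚ) * (K * (d * ((d - 1).factorial * (A : ℚ) ^ (d - 1)))) < ∑ j, x j →
    ∃ r : Fin d → ℤ, (∀ t ∈ T, 0 ≤ ev t (fun j => (r j : ℚ))) ∧ r ≠ 0 ∧
      (∀ j, |r j| ≤ (d - 1).factorial * (A : ℤ) ^ (d - 1)) ∧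
      ∀ t ∈ T, 0 ≤ ev t (x + (-K) • (fun j => (r j : ℚ))) := by
  classical
  intro n
  induction n with
  | zero =>
      intro s hs v hvT hl x hx hxv hlt
      have hs' : s = d := by omega
      subst hs'
      have h1 := eq_zero_of_rows v hl x hxv
      rw [h1] at hlt
      simp at hlt
  | succ n ih =>
      intro s hs v hvT hl x hx hxv hlt
      have hR : (0 : ℚ) ≤ K * (d * ((d - 1).factorial * (A : ℚ) ^ (d - 1))) := by positivity
      have hx0 : x ≠ 0 := by
        intro h0
        rw [h0] at hlt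
        simp only [Pi.zero_apply, Finset.sum_const_zero] at hlt
        have : (0 : ℚ) ≤ ((n + 1 : ℕ) : ℚ) * (K * (d * ((d - 1).factorial * (A : ℚ) ^ (d - 1)))) := by
          positivity
        linarith
      obtain ⟨r, hr1, hr2, hr3, hr4⟩ := ray A hA T hT hco n s (by omega) v hvT hl x hx hx0 hxv
      have hr0 : ∀ j, (0 : ℚ) ≤ r j := by
        intro j
        have := hr1 _ (hco j)
        rwa [ev_single] at this
      obtain ⟨l, hl0⟩ : ∃ j, r j ≠ 0 := by
        by_contra hcon
        push Not at hcon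
        exact hr2 (funext hcon)
      have hl1 : (0 : ℚ) < r l := lt_of_le_of_ne (hr0 l) (by exact_mod_cast hl0.symm)
      obtain ⟨c, hc, hc1, t, ht, hty, htx⟩ := ratio T x (-(fun j => (r j : ℚ))) hx
        ⟨Pi.single l 1, hco l, by rw [ev_single, Pi.neg_apply]; linarith⟩
      by_cases hcK : K ≤ c
      · refine ⟨r, hr1, hr2, hr3, fun t ht => ?_⟩
        have h1 := hc1 t ht
        have h2 := hr1 t ht
        rw [ev_add, ev_smul, ev_neg] at h1
        rw [ev_add, ev_smul]
        have h3 := mul_le_mul_of_nonneg_right hcK h2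
        linarith
      · push Not at hcK
        have hsum : ∑ j, (r j : ℚ) ≤ d * ((d - 1).factorial * (A : ℚ) ^ (d - 1)) := by
          have h1 : ∀ j ∈ (Finset.univ : Finset (Fin d)), (r j : ℚ) ≤
              (d - 1).factorial * (A : ℚ) ^ (d - 1) := by
            intro j _
            have h2 := (le_abs_self (r j)).trans (hr3 j)
            exact_mod_cast h2
          have h2 := Finset.sum_le_card_nsmul _ _ _ h1
          rw [Finset.card_univ, Fintype.card_fin, nsmul_eq_mul] at h2
          exact h2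
        have h1 := ih (s + 1) (by omega) (Fin.cons t v) (fun i => by
            refine Fin.cases ?_ (fun i => ?_) i
            · exact ht
            · exact hvT i) (indep_cons v hl t (-(fun j => (r j : ℚ))) (fun i => by
              rw [ev_neg, hr4 i, neg_zero]) hty.ne) (x + c • (-(fun j => (r j : ℚ)))) hc1
            (fun i => by
            refine Fin.cases ?_ (fun i => ?_) i
            · exact htx
            · show ev (v i) (x + c • (-(fun j => (r j : ℚ)))) = 0
              rw [ev_add, ev_smul, ev_neg, hxv i, hr4 i, neg_zero, mul_zero, add_zero]) (by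
            have h2 : ∑ j, (x + c • (-(fun j => (r j : ℚ)))) j = ∑ j, x j - c * ∑ j, (r j : ℚ) := by
              simp only [Pi.add_apply, Pi.smul_apply, Pi.neg_apply, smul_eq_mul, mul_neg,
                Finset.sum_add_distrib, Finset.sum_neg_distrib, ← Finset.mul_sum]
              ring
            rw [h2]
            push_cast at hlt
            have h3 : c * ∑ j, (r j : ℚ) ≤ K * (d * ((d - 1).factorial * (A : ℚ) ^ (d - 1))) :=
              mul_le_mul hcK.le hsum (Finset.sum_nonneg fun j _ => hr0 j) hK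
            linarith)
        obtain ⟨r', h1', h2', h3', h4'⟩ := h1
        refine ⟨r', h1', h2', h3', fun t ht => ?_⟩
        have h5 := h4' t ht
        have h6 := mul_nonneg hc (hr1 t ht)
        rw [ev_add, ev_add, ev_smul, ev_neg] at h5
        rw [ev_add]
        linarith

end Pool.Agent.Helper75.BG
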