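import Pool.Agent.Helper75.BG.Lin
import Pool.Agent.Helper71.Slopes

/-!
# Slopes of the words
-/

set_option autoImplicit false

namespace Pool.Agent.Helper75.BG

open Pool.Agent.Helper71.Slopes

variable {I : Type} [Fintype I] [LinearOrder I]

theorem conj_integral {α : ℂ} (h : IsIntegral ℤ α) : IsIntegral ℤ ((starRingEnd ℂ) α) :=
  h.map (RingHom.toIntAlgHom (starRingEnd ℂ))

theorem mul_conj_of_norm {q j : ℕ} {α : ℂ} (h : ‖α‖ = Real.sqrt q ^ j) :
    α * (starRingEnd ℂ) α = (q : ℂ) ^ j := by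
  rw [Complex.mul_conj, Complex.normSq_eq_norm_sq, h, ← pow_mul, mul_comm j 2, pow_mul,
    Real.sq_sqrt (Nat.cast_nonneg q)]
  push_cast
  rfl

theorem slope_le_of_mul {q N j c : ℕ} (hq : q ≠ 0) {P : Ideal (integralClosure ℤ ℂ)}
    (hqP : (q : integralClosure ℤ ℂ) ∈ P) {α b : ℂ} (hb : IsIntegral ℤ b)
    (h1 : α * b = (q : ℂ) ^ j) (h : HasSlope q N P α c) : c ≤ N * j := by
  have hqC : (q : ℂ) ≠ 0 := by exact_mod_cast hq
  obtain ⟨u, v, hu, hv, huv⟩ := h
  by_contra hlt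
  push Not at hlt
  let a : integralClosure ℤ ℂ := ⟨_, hb⟩
  have h2 : (u : ℂ) = (v : ℂ) * (a : ℂ) ^ N * (q : ℂ) ^ (c - N * j) := by
    have h3 : (q : ℂ) ^ (N * j) * (u : ℂ) =
        (q : ℂ) ^ (N * j) * ((v : ℂ) * (a : ℂ) ^ N * (q : ℂ) ^ (c - N * j)) := by
      have h4 : (q : ℂ) ^ (N * j) = (α * b) ^ N := by
        rw [h1, ← pow_mul, mul_comm]
      have h5 : (q : ℂ) ^ c = (q : ℂ) ^ (N * j) * (q : ℂ) ^ (c - N * j) := by
        rw [← pow_add, Nat.add_sub_cancel' hlt.le]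
      calc (q : ℂ) ^ (N * j) * (u : ℂ) = (α ^ N * u) * b ^ N := by
            rw [h4, mul_pow]; ring
        _ = (q : ℂ) ^ c * v * b ^ N := by rw [huv]
        _ = _ := by rw [h5]; show _ = (q : ℂ) ^ (N * j) * ((v : ℂ) * b ^ N *
                (q : ℂ) ^ (c - N * j)); ring
    exact mul_left_cancel₀ (pow_ne_zero _ hqC) h3
  have h3 : u = v * a ^ N * (q : integralClosure ℤ ℂ) ^ (c - N * j) := by
    apply Subtype.ext
    push_cast
    exact h2
  apply hu
  rw [h3]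
  exact P.mul_mem_left _ (P.pow_mem_of_mem hqP _ (by omega))

theorem slope_le {q N j c : ℕ} (hq : q ≠ 0) {P : Ideal (integralClosure ℤ ℂ)}
    (hqP : (q : integralClosure ℤ ℂ) ∈ P) {α : ℂ} (hα : IsIntegral ℤ α)
    (hn : ‖α‖ = Real.sqrt q ^ j) (h : HasSlope q N P α c) : c ≤ N * j :=
  slope_le_of_mul hq hqP (conj_integral hα) (mul_conj_of_norm hn) h

/-- the slopes on the cohomology of a variety of dimension `n` are at most `n` -/
theorem slope_le_dim {q N n j c : ℕ} (hq : q ≠ 0) {P : Ideal (integralClosure ℤ ℂ)}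
    (hqP : (q : integralClosure ℤ ℂ) ∈ P) {α : ℂ} (hα : IsIntegral ℤ (α / (q : ℂ) ^ (j - n)))
    (hn : ‖α‖ = Real.sqrt q ^ j) (h : HasSlope q N P α c) : c ≤ N * n := by
  have hqC : (q : ℂ) ≠ 0 := by exact_mod_cast hq
  have h1 : c ≤ N * (j - (j - n)) := by
    refine slope_le_of_mul hq hqP (conj_integral hα) ?_ h
    rw [map_div₀, map_pow, map_natCast, mul_div_assoc', mul_conj_of_norm hn,
      div_eq_iff (pow_ne_zero _ hqC), ← pow_add]
    congr 1
    omega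
  exact h1.trans (Nat.mul_le_mul_left N (by omega))

theorem integral_of_div {q k : ℕ} {α : ℂ} (hq : q ≠ 0) (h : IsIntegral ℤ (α / (q : ℂ) ^ k)) :
    IsIntegral ℤ α := by
  have hqC : (q : ℂ) ≠ 0 := by exact_mod_cast hq
  have h0 : IsIntegral ℤ (q : ℂ) := by
    have := isIntegral_algebraMap (R := ℤ) (A := ℂ) (x := (q : ℤ))
    simpa using this
  have h1 : IsIntegral ℤ ((q : ℂ) ^ k) := h0.pow k
  have h2 := h.mul h1
  rwa [div_mul_cancel₀ _ (pow_ne_zero _ hqC)] at h2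

theorem exists_prime {q : ℕ} (hq : 2 ≤ q) : ∃ P : Ideal (integralClosure ℤ ℂ), P.IsPrime ∧
    (q : integralClosure ℤ ℂ) ∈ P := by
  have hne : Ideal.span {(q : integralClosure ℤ ℂ)} ≠ ⊤ := by
    intro h
    rw [Ideal.span_singleton_eq_top] at h
    obtain ⟨x, hx⟩ := h.exists_right_inv
    have h1 : (q : ℂ) * (x : ℂ) = 1 := by
      have := congrArg (fun z : integralClosure ℤ ℂ => (z : ℂ)) hx
      push_cast at this
      exact this
    have hqC : (q : ℂ) ≠ 0 := by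
      intro h2
      rw [h2, zero_mul] at h1
      exact zero_ne_one h1
    have h2 : (x : ℂ) = algebraMap ℚ ℂ (1 / q) := by
      rw [map_div₀, map_one, map_natCast]
      exact eq_one_div_of_mul_eq_one_right h1
    have h3 : IsIntegral ℤ (algebraMap ℚ ℂ (1 / (q : ℚ))) := by
      rw [← h2]
      exact x.2
    have h4 : IsIntegral ℤ (1 / (q : ℚ)) :=
      (isIntegral_algebraMap_iff (algebraMap ℚ ℂ).injective).1 h3
    obtain ⟨z, hz⟩ := IsIntegrallyClosed.isIntegral_iff.1 h4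
    have hqQ : (q : ℚ) ≠ 0 := by
      intro h5
      apply hqC
      exact_mod_cast h5
    have h5 : (z : ℚ) * q = 1 := by
      have : (z : ℚ) = 1 / q := hz
      rw [this]
      field_simp
    have h6 : z * (q : ℤ) = 1 := by exact_mod_cast h5
    have h7 : (q : ℤ) ∣ 1 := Dvd.intro_left z h6
    have h8 := Int.le_of_dvd one_pos h7
    omega
  obtain ⟨P, hP, hle⟩ := Ideal.exists_le_maximal _ hne
  exact ⟨P, hP.isPrime, hle (Ideal.mem_span_singleton_self _)⟩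

variable {F : Matrix I I ℂ} {wt : I → ℕ} {m : ℕ}

omit [LinearOrder I] in
theorem eig_norm {q : ℕ} (h : ∀ x, IsIntegral ℤ (F x x) ∧ ‖F x x‖ = Real.sqrt q ^ wt x)
    (y : Fin m → I) : IsIntegral ℤ (eig F y) ∧ ‖eig F y‖ = Real.sqrt q ^ (∑ p, wt (y p)) := by
  unfold eig
  constructor
  · exact IsIntegral.prod _ fun p _ => (h (y p)).1
  · rw [norm_prod, ← Finset.prod_pow_eq_pow_sum]
    exact Finset.prod_congr rfl fun p _ => (h (y p)).2

omit [LinearOrder I] in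
/-- a word whose slopes are at least `ν` is good -/
theorem good_of_slopes {q N ν : ℕ} (hq : 2 ≤ q) (hN : 0 < N)
    (h : ∀ x, IsIntegral ℤ (F x x) ∧ ‖F x x‖ = Real.sqrt q ^ wt x) (y : Fin m → I)
    (hs : ∀ P : Ideal (integralClosure ℤ ℂ), P.IsPrime → (q : integralClosure ℤ ℂ) ∈ P →
      ∃ c, HasSlope q N P (eig F y) c ∧ N * ν ≤ c) : Good q wt F ν y := by
  have hq0 : q ≠ 0 := by omega
  have hqC : (q : ℂ) ≠ 0 := by exact_mod_cast hq0
  obtain ⟨h1, h2⟩ := eig_norm h y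
  have h3 := integral_of_slope hq0 hN h1 hs
  refine ⟨h3, ?_⟩
  obtain ⟨P, hP, hqP⟩ := exists_prime hq
  obtain ⟨c, hc, hcν⟩ := hs P hP hqP
  have h4 := slope_le hq0 hqP h1 h2 hc
  have h5 : ν ≤ ∑ p, wt (y p) := Nat.le_of_mul_le_mul_left (hcν.trans h4) hN
  have h6 := conj_integral h3
  have h7 := mul_conj_of_norm h2
  have h8 : eig F y ≠ 0 := by
    intro h9
    rw [h9, zero_mul] at h7
    exact pow_ne_zero _ hqC h7.symm
  have h9 : (q : ℂ) ^ ((∑ p, wt (y p)) - ν) / eig F y =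
      (starRingEnd ℂ) (eig F y / (q : ℂ) ^ ν) := by
    rw [map_div₀, map_pow, map_natCast, div_eq_div_iff h8 (pow_ne_zero _ hqC), ← pow_add,
      Nat.sub_add_cancel h5, ← h7, mul_comm]
  rw [h9]
  exact h6

theorem IsFrobenius.weights {d n N : ℕ} {Φ : Set (ℕ × Matrix I I ℂ)}
    (hF : IsFrobenius d n N Φ wt) {z : ℕ × Matrix I I ℂ} (hz : z ∈ Φ) (x : I) :
    IsIntegral ℤ (z.2 x x) ∧ ‖z.2 x x‖ = Real.sqrt z.1 ^ wt x :=
  ⟨integral_of_div (by have := hF.two_le z hz; omega) (hF.integral z hz x), hF.weight z hz x⟩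

end Pool.Agent.Helper75.BG
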