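import Pool.Agent.Helper75.BG.Gen
import Pool.Agent.Helper75.BG.Kron
import Pool.Agent.Helper75.BG.Noeth

/-!
# Any smooth projective variety: each level of the Galois coniveau of all powers is finitely generated
-/

set_option autoImplicit false

namespace Pool.Agent.Helper75.BG

variable {I : Type} [Fintype I]

/-- merging two words -/
def merge {m m' n : ℕ} (e : Fin m ⊕ Fin m' ≃ Fin n) : (Fin m → I) × (Fin m' → I) ≃ (Fin n → I) where
  toFun ab := fun p => Sum.elim ab.1 ab.2 (e.symm p)
  invFun y := (fun p => y (e (Sum.inl p)), fun p => y (e (Sum.inr p)))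
  left_inv ab := by
    obtain ⟨a, b⟩ := ab
    simp
  right_inv y := by
    funext p
    obtain ⟨s, rfl⟩ := e.surjective p
    rcases s with a | a <;> simp

omit [Fintype I] in
theorem merge_inl {m m' n : ℕ} (e : Fin m ⊕ Fin m' ≃ Fin n) (ab : (Fin m → I) × (Fin m' → I))
    (p : Fin m) : merge e ab (e (Sum.inl p)) = ab.1 p := by
  simp [merge]

omit [Fintype I] in
theorem merge_inr {m m' n : ℕ} (e : Fin m ⊕ Fin m' ≃ Fin n) (ab : (Fin m → I) × (Fin m' → I))
    (p : Fin m') : merge e ab (e (Sum.inr p)) = ab.2 p := by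
  simp [merge]

/-- the elements of degree `i` -/
def dg (wt : I → ℕ) (m i : ℕ) : Submodule ℂ ((Fin m → I) → ℂ) where
  carrier := {u | ∀ y, u y ≠ 0 → ∑ p, wt (y p) = i}
  add_mem' := by
    intro a b ha hb z hz
    rw [Pi.add_apply] at hz
    by_cases h2 : a z = 0
    · exact hb z (fun h3 => hz (by rw [h2, h3, add_zero]))
    · exact ha z h2
  zero_mem' := fun z hz => absurd rfl hz
  smul_mem' := by
    intro c a ha z hz
    exact ha z (fun h3 => hz (by rw [Pi.smul_apply, h3, smul_zero]))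

/-- the tensor product, with signs -/
noncomputable def Psi (wt : I → ℕ) {m m' n : ℕ} (e : Fin m ⊕ Fin m' ≃ Fin n) :
    ((Fin n → I) → ℂ) →ₗ[ℂ] ((Fin m → I) × (Fin m' → I) → ℂ) where
  toFun w := fun ab => koszul wt e (merge e ab) * w (merge e ab)
  map_add' u v := by
    funext ab
    simp only [Pi.add_apply, mul_add]
  map_smul' c u := by
    funext ab
    simp only [Pi.smul_apply, smul_eq_mul, RingHom.id_apply]
    ring

theorem Psi_T (wt : I → ℕ) (F : Matrix I I ℂ) (hF : ∀ x y, F x y ≠ 0 → wt x = wt y)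
    {m m' n : ℕ} (e : Fin m ⊕ Fin m' ≃ Fin n) (w : (Fin n → I) → ℂ) :
    Psi wt e (tensorPower F w) = act1 (fun a a' : Fin m → I => ∏ p, F (a p) (a' p))
      (act2 (fun b b' : Fin m' → I => ∏ p, F (b p) (b' p)) (Psi wt e w)) := by
  funext ab
  show koszul wt e (merge e ab) * ∑ y, (∏ p, F (merge e ab p) (y p)) * w y =
    ∑ a', (∏ p, F (ab.1 p) (a' p)) * ∑ b', (∏ p, F (ab.2 p) (b' p)) *
      (koszul wt e (merge e (a', b')) * w (merge e (a', b')))
  rw [← (merge e).sum_comp, Fintype.sum_prod_type, Finset.mul_sum]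
  refine Finset.sum_congr rfl fun a' _ => ?_
  rw [Finset.mul_sum, Finset.mul_sum]
  refine Finset.sum_congr rfl fun b' _ => ?_
  have h1 : ∏ p, F (merge e ab p) (merge e (a', b') p) =
      (∏ p, F (ab.1 p) (a' p)) * ∏ p, F (ab.2 p) (b' p) := by
    rw [← e.prod_comp, Fintype.prod_sum_type]
    congr 1
    · exact Finset.prod_congr rfl fun p _ => by rw [merge_inl, merge_inl]
    · exact Finset.prod_congr rfl fun p _ => by rw [merge_inr, merge_inr]
  rw [h1]
  by_cases h2 : (∏ p, F (ab.1 p) (a' p)) * ∏ p, F (ab.2 p) (b' p) = 0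
  · rw [h2, zero_mul, mul_zero, ← mul_assoc, h2, zero_mul]
  · have h3 : koszul wt e (merge e ab) = koszul wt e (merge e (a', b')) := by
      rw [← h1] at h2
      have h4 : ∀ p, wt (merge e ab p) = wt (merge e (a', b') p) := fun p =>
        hF _ _ (Finset.prod_ne_zero_iff.1 h2 p (Finset.mem_univ p))
      unfold koszul
      simp only [h4]
    rw [h3]
    ring

theorem galois_le_dg {Φ : Set (ℕ × Matrix I I ℂ)} {wt : I → ℕ} {m i ν : ℕ} :
    galoisConiveau Φ wt m i ν ≤ dg wt m i :=
  sSup_le fun _ hU u hu y hy => hU.degree u hu y hy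

theorem galois_product {Φ : Set (ℕ × Matrix I I ℂ)} {wt : I → ℕ} (hΦ : IsSystem Φ wt)
    {m m' n i i' ν : ℕ} (e : Fin m ⊕ Fin m' ≃ Fin n) (u : (Fin m → I) → ℂ)
    (v : (Fin m' → I) → ℂ) (hu : u ∈ galoisConiveau Φ wt m i ν) (hv : v ∈ dg wt m' i') :
    product wt e u v ∈ galoisConiveau Φ wt n (i + i') ν := by
  let Λ : ((Fin m → I) → ℂ) →ₗ[ℂ] ((Fin n → I) → ℂ) :=
    { toFun := fun u => product wt e u v
      map_add' := fun a b => product_add_left wt e a b v
      map_smul' := fun c a => product_smul_left wt e c a v }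
  suffices h : galoisConiveau Φ wt m i ν ≤ (galoisConiveau Φ wt n (i + i') ν).comap Λ from h hu
  refine sSup_le fun U hU => ?_
  intro u hu
  show product wt e u v ∈ galoisConiveau Φ wt n (i + i') ν
  refine (le_sSup (show (bi U (dg wt m' i')).comap (Psi wt e) ∈
    {U | IsEffective Φ wt n (i + i') ν U} from ?_)) ?_
  swap
  · -- the product is in the tensor product
    have h1 : ∀ ab : (Fin m → I) × (Fin m' → I), Psi wt e (product wt e u v) ab =
        (koszul wt e (merge e ab) * koszul wt e (merge e ab)) * (u ab.1 * v ab.2) := by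
      intro ab
      show koszul wt e (merge e ab) * (koszul wt e (merge e ab) *
        (u (fun p => merge e ab (e (Sum.inl p))) * v (fun p => merge e ab (e (Sum.inr p))))) = _
      have h2 : (fun p => merge e ab (e (Sum.inl p))) = ab.1 := funext fun p => merge_inl e ab p
      have h3 : (fun p => merge e ab (e (Sum.inr p))) = ab.2 := funext fun p => merge_inr e ab p
      rw [h2, h3]
      ring
    have hk : ∀ y, koszul wt e y * koszul wt e y = 1 := by
      intro y
      unfold koszul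
      rw [← Finset.prod_mul_distrib]
      refine Finset.prod_eq_one fun s _ => ?_
      rw [← Finset.prod_mul_distrib]
      refine Finset.prod_eq_one fun t _ => ?_
      split_ifs
      · rw [← mul_pow]
        simp
      · simp
    have h4 : Psi wt e (product wt e u v) = fun ab => u ab.1 * v ab.2 := by
      funext ab
      rw [h1, hk, one_mul]
    rw [Submodule.mem_comap, h4]
    refine ⟨fun b => ?_, fun a => ?_⟩
    · have h5 : (fun a => u a * v b) = v b • u := by
        funext a
        rw [Pi.smul_apply, smul_eq_mul, mul_comm]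
      show (fun a => u a * v b) ∈ U
      rw [h5]
      exact U.smul_mem _ hu
    · have h5 : (fun b => u a * v b) = u a • v := by
        funext b
        rw [Pi.smul_apply, smul_eq_mul]
      show (fun b => u a * v b) ∈ dg wt m' i'
      rw [h5]
      exact Submodule.smul_mem _ _ hv
  -- the tensor product is effective
  have hUst : ∀ z ∈ Φ, ∀ u ∈ U, mact (fun a a' : Fin m → I => ∏ p, z.2 (a p) (a' p)) u ∈ U :=
    fun z hz u hu => hU.stable z hz u hu
  have hDst : ∀ z ∈ Φ, ∀ u ∈ dg wt m' i',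
      mact (fun b b' : Fin m' → I => ∏ p, z.2 (b p) (b' p)) u ∈ dg wt m' i' := by
    intro z hz u hu y hy
    obtain ⟨y', -, h2⟩ := Finset.exists_ne_zero_of_sum_ne_zero hy
    rw [← hu y' (right_ne_zero_of_mul h2)]
    refine Finset.sum_congr rfl fun p _ => hΦ.graded z hz _ _ ?_
    exact Finset.prod_ne_zero_iff.1 (left_ne_zero_of_mul h2) p (Finset.mem_univ p)
  refine ⟨?_, ?_, ?_⟩
  · intro w hw y hy
    obtain ⟨⟨a, b⟩, rfl⟩ := (merge e).surjective y
    have h1 : Psi wt e w (a, b) ≠ 0 := mul_ne_zero (koszul_ne_zero wt e _) hy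
    have h2 := hU.degree _ (hw.1 b) a h1
    have h3 := hw.2 a b h1
    rw [← e.sum_comp, Fintype.sum_sum_type]
    simp only [merge_inl, merge_inr]
    rw [h2, h3]
  · intro z hz w hw
    rw [Submodule.mem_comap, Psi_T wt z.2 (hΦ.graded z hz)]
    exact act1_bi _ _ _ (hUst z hz) (act2_bi _ _ _ (hDst z hz) hw)
  · intro z hz w hw hw0 β hβ
    have h1 : Psi wt e w ≠ 0 := by
      intro h2
      apply hw0
      funext y
      obtain ⟨ab, rfl⟩ := (merge e).surjective y
      have h3 := congrFun h2 ab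
      rcases mul_eq_zero.1 (show koszul wt e (merge e ab) * w (merge e ab) = 0 from h3) with h4 | h4
      · exact absurd h4 (koszul_ne_zero wt e _)
      · exact h4
    have h2 := Psi_T wt z.2 (hΦ.graded z hz) e w
    rw [hβ, map_smul] at h2
    obtain ⟨μ, γ, ⟨u1, hu1, hu10, hu1e⟩, ⟨u2, hu2, hu20, hu2e⟩, hβ'⟩ :=
      kron_eig _ _ U (dg wt m' i') (hUst z hz) (hDst z hz) (v := Psi wt e w) hw h1 h2.symm
    have h3 := hU.integral z hz u1 hu1 hu10 μ hu1e
    have h4 := hΦ.pure z hz m i u1 hu10 (hU.degree u1 hu1) μ hu1e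
    have h5 := hΦ.pure z hz m' i' u2 hu20 hu2 γ hu2e
    have h6 : ν ≤ i := le_of_integral (hΦ.two_le z hz) h3.1 h4.2
    have hqC : (z.1 : ℂ) ≠ 0 := by
      have : z.1 ≠ 0 := by have := hΦ.two_le z hz; omega
      exact_mod_cast this
    have h7 := mul_conj_of_norm h5.2
    have hγ : γ ≠ 0 := by
      intro h8
      rw [h8, zero_mul] at h7
      exact pow_ne_zero _ hqC h7.symm
    rw [hβ']
    constructor
    · rw [mul_div_right_comm]
      exact h3.1.mul h5.1
    · have h8 : (z.1 : ℂ) ^ (i + i' - ν) / (μ * γ) =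
          ((z.1 : ℂ) ^ (i - ν) / μ) * (starRingEnd ℂ) γ := by
        have h9 : i + i' - ν = (i - ν) + i' := by omega
        rw [h9, pow_add, mul_div_mul_comm, ← h7, mul_div_cancel_left₀ _ hγ]
      rw [h8]
      exact h3.2.mul (conj_integral h5.1)

variable [LinearOrder I]

/-- **For each level the powers of any variety are finitely generated.** -/
theorem finite_level {Φ : Set (ℕ × Matrix I I ℂ)} {wt : I → ℕ} (hΦ : IsSystem Φ wt) (ν₀ : ℕ) :
    ∃ B : ℕ, ∀ G : (m i ν : ℕ) → Submodule ℂ ((Fin m → I) → ℂ), IsGeometric Φ wt G →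
      (∀ m ≤ B, ∀ i, ∀ ν ≤ ν₀, G m i ν = galoisConiveau Φ wt m i ν) →
      ∀ m i, ∀ ν ≤ ν₀, G m i ν = galoisConiveau Φ wt m i ν := by
  classical
  have hins : ∀ {m m' n : ℕ} (e : Fin m ⊕ Fin m' ≃ Fin n) (u : (Fin m → I) → ℂ)
      (z : Fin m' → I), ins (fun {_ _ _} e y => koszul wt e y) e u z =
      product wt e u (Pi.single z 1) := by
    intro m m' n e u z
    funext y
    show koszul wt e y * (u (fun p => y (e (Sum.inl p))) *
      (if (fun p => y (e (Sum.inr p))) = z then 1 else 0)) = koszul wt e y *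
      (u (fun p => y (e (Sum.inl p))) * (Pi.single z 1 : (Fin m' → I) → ℂ)
        (fun p => y (e (Sum.inr p))))
    rw [Pi.single_apply]
  have hsingle : ∀ {m' : ℕ} (z : Fin m' → I),
      (Pi.single z 1 : (Fin m' → I) → ℂ) ∈ dg wt m' (∑ p, wt (z p)) := by
    intro m' z y hy
    by_cases h : y = z
    · rw [h]
    · exact absurd (Pi.single_eq_of_ne h _) hy
  have h1 : ∀ ν : ℕ, ∃ B : ℕ, ∀ G : (m i : ℕ) → Submodule ℂ ((Fin m → I) → ℂ),
      (∀ m i, G m i ≤ galoisConiveau Φ wt m i ν) →
      (∀ {m m' n i : ℕ} (e : Fin m ⊕ Fin m' ≃ Fin n), ∀ u ∈ G m i, ∀ z : Fin m' → I,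
        ins (fun {_ _ _} e y => koszul wt e y) e u z ∈ G n (i + ∑ p, wt (z p))) →
      (∀ m ≤ B, ∀ i, G m i = galoisConiveau Φ wt m i ν) →
      ∀ m i, G m i = galoisConiveau Φ wt m i ν := by
    intro ν
    refine noeth wt (fun {_ _ _} e y => koszul wt e y) (fun e y => koszul_ne_zero wt e y)
      (fun m i => galoisConiveau Φ wt m i ν) (fun m i u hu => galois_le_dg hu) ?_
    intro m m' n i e u hu z
    rw [hins]
    exact galois_product hΦ e u _ hu (hsingle z)
  choose B hB using h1
  refine ⟨(Finset.range (ν₀ + 1)).sup B, fun G hG h m i ν hν => ?_⟩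
  refine hB ν (fun m i => G m i ν) (fun m i => hG.le m i ν) ?_ ?_ m i
  · intro m m' n i e u hu z
    rw [hins]
    exact hG.mul e u _ hu (hG.zero _ _ _ (hsingle z))
  · intro m hm i
    refine h m (hm.trans (Finset.le_sup (f := B) (Finset.mem_range.2 (by omega)))) i ν hν

end Pool.Agent.Helper75.BG
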